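import Mathlib

/-! Unit distance graph of a set family of VC dimension at most d has at most d edges per vertex
(Haussler, Littlestone, Warmuth). -/

namespace Pool.Agent.Helper39.TC

open Finset

variable {α : Type*} [DecidableEq α]

/-- members S of the family with a not in S and S with a added again in the family -/
def edgesAt (a : α) (A : Finset (Finset α)) : Finset (Finset α) :=
  A.filter (fun S => a ∉ S ∧ insert a S ∈ A)

lemma mem_edgesAt {a : α} {A : Finset (Finset α)} {S : Finset α} :
    S ∈ edgesAt a A ↔ S ∈ A ∧ a ∉ S ∧ insert a S ∈ A := by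
  simp [edgesAt]

/-- number of unit distance pairs with difference in G -/
def unitEdges (G : Finset α) (A : Finset (Finset α)) : ℕ :=
  ∑ a ∈ G, (edgesAt a A).card

lemma edgesAt_union_inter (a : α) (A B : Finset (Finset α)) :
    (edgesAt a A).card + (edgesAt a B).card
      ≤ (edgesAt a (A ∪ B)).card + (edgesAt a (A ∩ B)).card := by
  have h1 : edgesAt a A ∩ edgesAt a B = edgesAt a (A ∩ B) := by
    ext S
    simp only [mem_inter, mem_edgesAt]
    tauto
  have h2 : edgesAt a A ∪ edgesAt a B ⊆ edgesAt a (A ∪ B) := by
    intro S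
    simp only [mem_union, mem_edgesAt]
    tauto
  have h3 := Finset.card_union_add_card_inter (edgesAt a A) (edgesAt a B)
  have h4 := Finset.card_le_card h2
  rw [h1] at h3
  omega

theorem unitEdges_le (G : Finset α) : ∀ (A : Finset (Finset α)) (d : ℕ), (∀ S ∈ A, S ⊆ G) →
    (∀ s, A.Shatters s → s.card ≤ d) → unitEdges G A ≤ d * A.card := by
  induction G using Finset.induction_on with
  | empty => intro A d _ _; simp [unitEdges]
  | insert x G hx ih =>
    intro A d hA hd
    set A0 := A.nonMemberSubfamily x with hA0
    set A1 := A.memberSubfamily x with hA1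
    have m0 : ∀ S, S ∈ A0 ↔ S ∈ A ∧ x ∉ S := fun S => by simp [hA0, mem_nonMemberSubfamily]
    have m1 : ∀ S, S ∈ A1 ↔ insert x S ∈ A ∧ x ∉ S := fun S => by
      simp [hA1, mem_memberSubfamily]
    have hsub : ∀ S ∈ A0 ∪ A1, S ⊆ G := by
      intro S hS
      rcases Finset.mem_union.1 hS with h | h
      · obtain ⟨h1, h2⟩ := (m0 S).1 h
        exact (Finset.subset_insert_iff_of_notMem h2).1 (hA S h1)
      · obtain ⟨h1, h2⟩ := (m1 S).1 h
        intro y hy
        have : y ∈ insert x G := hA _ h1 (Finset.mem_insert_of_mem hy)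
        rcases Finset.mem_insert.1 this with h3 | h3
        · exact absurd (h3 ▸ hy) h2
        · exact h3
    have hsub2 : ∀ S ∈ A0 ∩ A1, S ⊆ G := fun S hS =>
      hsub S (Finset.mem_union_left _ (Finset.mem_inter.1 hS).1)
    -- shattering
    have hnotin : ∀ s, (A0 ∪ A1).Shatters s → x ∉ s := by
      intro s hs hxs
      obtain ⟨t, ht, h1⟩ := hs (Finset.Subset.refl s)
      have h2 : x ∈ s ∩ t := by rw [h1]; exact hxs
      have h3 := (Finset.mem_inter.1 h2).2
      rcases Finset.mem_union.1 ht with h | h
      · exact ((m0 t).1 h).2 h3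
      · exact ((m1 t).1 h).2 h3
    have hU : ∀ s, (A0 ∪ A1).Shatters s → s.card ≤ d := by
      intro s hs
      have hxs := hnotin s hs
      refine hd s ?_
      intro u hu
      obtain ⟨t, ht, h1⟩ := hs hu
      rcases Finset.mem_union.1 ht with h | h
      · exact ⟨t, ((m0 t).1 h).1, h1⟩
      · refine ⟨insert x t, ((m1 t).1 h).1, ?_⟩
        rw [← h1]
        ext y
        simp only [mem_inter, mem_insert]
        constructor
        · rintro ⟨h2, h3 | h3⟩
          · exact absurd (h3 ▸ h2) hxs
          · exact ⟨h2, h3⟩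
        · rintro ⟨h2, h3⟩
          exact ⟨h2, Or.inr h3⟩
    have hI : ∀ s, (A0 ∩ A1).Shatters s → s.card + 1 ≤ d := by
      intro s hs
      have hxs : x ∉ s := by
        intro hxs
        obtain ⟨t, ht, h1⟩ := hs (Finset.Subset.refl s)
        have h2 : x ∈ s ∩ t := by rw [h1]; exact hxs
        exact ((m0 t).1 (Finset.mem_inter.1 ht).1).2 (Finset.mem_inter.1 h2).2
      have hsh : A.Shatters (insert x s) := by
        intro u hu
        have hu' : u.erase x ⊆ s := by
          intro y hy
          have h2 := hu (Finset.mem_of_mem_erase hy)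
          rcases Finset.mem_insert.1 h2 with h3 | h3
          · exact absurd h3 (Finset.ne_of_mem_erase hy)
          · exact h3
        obtain ⟨t, ht, h1⟩ := hs hu'
        obtain ⟨ht0, ht1⟩ := Finset.mem_inter.1 ht
        have hxt := ((m0 t).1 ht0).2
        by_cases hxu : x ∈ u
        · refine ⟨insert x t, ((m1 t).1 ht1).1, ?_⟩
          rw [← Finset.insert_inter_distrib, h1, Finset.insert_erase hxu]
        · refine ⟨t, ((m0 t).1 ht0).1, ?_⟩
          rw [Finset.insert_inter_of_notMem hxt, h1, Finset.erase_eq_of_notMem hxu]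
      have := hd _ hsh
      rwa [Finset.card_insert_of_notMem hxs] at this
    -- edges in direction x
    have hx1 : (edgesAt x A).card = (A0 ∩ A1).card := by
      congr 1
      ext S
      simp only [mem_edgesAt, mem_inter, m0, m1]
      tauto
    -- other directions
    have hother : ∀ a ∈ G, (edgesAt a A).card ≤ (edgesAt a A0).card + (edgesAt a A1).card := by
      intro a ha
      have hax : a ≠ x := fun h => hx (h ▸ ha)
      have hsplit : edgesAt a A ⊆ edgesAt a A0 ∪ (edgesAt a A1).image (insert x) := by
        intro S hS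
        obtain ⟨h1, h2, h3⟩ := mem_edgesAt.1 hS
        by_cases hxS : x ∈ S
        · refine Finset.mem_union_right _ (Finset.mem_image.2 ⟨S.erase x, ?_, Finset.insert_erase hxS⟩)
          rw [mem_edgesAt, m1, m1]
          refine ⟨⟨by rwa [Finset.insert_erase hxS], Finset.notMem_erase x S⟩, ?_, ?_, ?_⟩
          · exact fun h => h2 (Finset.mem_of_mem_erase h)
          · rw [Finset.insert_comm, Finset.insert_erase hxS]; exact h3
          · simp [hax.symm]
        · refine Finset.mem_union_left _ ?_
          rw [mem_edgesAt, m0, m0]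
          refine ⟨⟨h1, hxS⟩, h2, h3, ?_⟩
          simp [hax.symm, hxS]
      calc (edgesAt a A).card ≤ _ := Finset.card_le_card hsplit
        _ ≤ _ := Finset.card_union_le _ _
        _ ≤ _ := Nat.add_le_add_left Finset.card_image_le _
    have hcard : A0.card + A1.card = A.card := by
      rw [hA0, hA1, add_comm]; exact card_memberSubfamily_add_card_nonMemberSubfamily x A
    have hUI := Finset.card_union_add_card_inter A0 A1
    have key : unitEdges (insert x G) A ≤ (A0 ∩ A1).card + (unitEdges G (A0 ∪ A1) + unitEdges G (A0 ∩ A1)) := by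
      unfold unitEdges
      rw [Finset.sum_insert hx, hx1, ← Finset.sum_add_distrib]
      refine Nat.add_le_add_left (Finset.sum_le_sum fun a ha => ?_) _
      exact (hother a ha).trans (edgesAt_union_inter a A0 A1)
    have i1 := ih (A0 ∪ A1) d hsub hU
    rcases Finset.eq_empty_or_nonempty (A0 ∩ A1) with he | hne
    · rw [he] at key hUI
      have : unitEdges G (∅ : Finset (Finset α)) = 0 := by simp [unitEdges, edgesAt]
      rw [this] at key
      simp only [Finset.card_empty, zero_add, add_zero] at key hUI
      calc _ ≤ _ := key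
        _ ≤ _ := i1
        _ = d * A.card := by rw [hUI, hcard]
    · have hd1 : 1 ≤ d := by
        have := hI ∅ (by rw [Finset.shatters_empty]; exact hne)
        simpa using this
      have i2 := ih (A0 ∩ A1) (d - 1) hsub2 (fun s hs => by have := hI s hs; omega)
      obtain ⟨e, rfl⟩ : ∃ e, d = e + 1 := ⟨d - 1, by omega⟩
      simp only [Nat.add_sub_cancel] at i2
      calc _ ≤ _ := key
        _ ≤ (A0 ∩ A1).card + ((e + 1) * (A0 ∪ A1).card + e * (A0 ∩ A1).card) := by gcongr
        _ = (e + 1) * ((A0 ∪ A1).card + (A0 ∩ A1).card) := by ring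
        _ = (e + 1) * A.card := by rw [hUI, hcard]

end Pool.Agent.Helper39.TC
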