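import Mathlib
import Pool.Agent.Helper39.TC.Unit

/-! Haussler's packing lemma for set families with few traces. -/

namespace Pool.Agent.Helper39.TC

open Finset

variable {α : Type*} [DecidableEq α]

/-- traces of the family on A -/
def tr (F : Finset (Finset α)) (A : Finset α) : Finset (Finset α) := F.image (fun S => S ∩ A)

/-- number of members with trace Q on A -/
def wt (F : Finset (Finset α)) (A Q : Finset α) : ℕ := (F.filter (fun S => S ∩ A = Q)).card

/-- weight of the unit distance pairs in direction a of the traces on A -/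
def mA (F : Finset (Finset α)) (A : Finset α) (a : α) : ℕ :=
  ∑ Q ∈ (tr F A).filter (fun Q => a ∉ Q), min (wt F A Q) (wt F A (insert a Q))

lemma wt_le (F : Finset (Finset α)) (A Q : Finset α) : wt F A Q ≤ F.card :=
  Finset.card_le_card (Finset.filter_subset _ _)

lemma wt_pos_mem {F : Finset (Finset α)} {A Q : Finset α} (h : 0 < wt F A Q) : Q ∈ tr F A := by
  obtain ⟨S, hS⟩ := Finset.card_pos.1 h
  obtain ⟨h1, h2⟩ := Finset.mem_filter.1 hS
  exact Finset.mem_image.2 ⟨S, h1, h2⟩

lemma min_eq_sum (M x y : ℕ) (hx : x ≤ M) :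
    min x y = ∑ τ ∈ range M, if τ < x ∧ τ < y then 1 else 0 := by
  rw [← Finset.sum_filter, ← Finset.card_eq_sum_ones]
  have : (range M).filter (fun τ => τ < x ∧ τ < y) = range (min x y) := by
    ext τ
    simp only [mem_filter, mem_range, lt_min_iff]
    constructor
    · rintro ⟨_, h⟩; exact h
    · rintro h; exact ⟨by omega, h⟩
  rw [this, Finset.card_range]

lemma self_eq_sum (M x : ℕ) (hx : x ≤ M) : x = ∑ τ ∈ range M, if τ < x then 1 else 0 := by
  have := min_eq_sum M x x hx
  simpa using this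

lemma sum_wt (F : Finset (Finset α)) (A : Finset α) : ∑ Q ∈ tr F A, wt F A Q = F.card := by
  unfold tr wt
  rw [← Finset.card_eq_sum_card_image]

theorem sum_mA_le (F : Finset (Finset α)) (A : Finset α) (d : ℕ)
    (hd : ∀ s, F.Shatters s → s.card ≤ d) : ∑ a ∈ A, mA F A a ≤ d * F.card := by
  set M := F.card with hM
  let lev : ℕ → Finset (Finset α) := fun τ => (tr F A).filter (fun Q => τ < wt F A Q)
  have h1 : ∀ a ∈ A, mA F A a = ∑ τ ∈ range M, (edgesAt a (lev τ)).card := by
    intro a ha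
    unfold mA
    have e1 : ∀ Q ∈ (tr F A).filter (fun Q => a ∉ Q),
        min (wt F A Q) (wt F A (insert a Q))
          = ∑ τ ∈ range M, if τ < wt F A Q ∧ τ < wt F A (insert a Q) then 1 else 0 :=
      fun Q _ => min_eq_sum M _ _ (wt_le F A Q)
    rw [Finset.sum_congr rfl e1, Finset.sum_comm]
    refine Finset.sum_congr rfl fun τ _ => ?_
    rw [← Finset.sum_filter, ← Finset.card_eq_sum_ones, Finset.filter_filter]
    congr 1
    ext Q
    simp only [mem_filter, mem_edgesAt, lev]
    constructor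
    · rintro ⟨h2, h3, h4, h5⟩
      exact ⟨⟨h2, h4⟩, h3, wt_pos_mem (by omega), h5⟩
    · rintro ⟨⟨h2, h4⟩, h3, _, h5⟩
      exact ⟨h2, h3, h4, h5⟩
  rw [Finset.sum_congr rfl h1, Finset.sum_comm]
  have h2 : ∀ τ ∈ range M, ∑ a ∈ A, (edgesAt a (lev τ)).card ≤ d * (lev τ).card := by
    intro τ _
    refine unitEdges_le A (lev τ) d ?_ ?_
    · intro S hS
      obtain ⟨T, _, rfl⟩ := Finset.mem_image.1 (Finset.mem_filter.1 hS).1
      exact Finset.inter_subset_right
    · intro s hs
      have hsA : s ⊆ A := by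
        obtain ⟨t, ht, h3⟩ := hs (Finset.Subset.refl s)
        obtain ⟨T, _, rfl⟩ := Finset.mem_image.1 (Finset.mem_filter.1 ht).1
        intro x hx
        rw [← h3] at hx
        exact (Finset.mem_inter.1 (Finset.mem_inter.1 hx).2).2
      refine hd s ?_
      intro u hu
      obtain ⟨t, ht, h3⟩ := hs hu
      obtain ⟨T, hT, rfl⟩ := Finset.mem_image.1 (Finset.mem_filter.1 ht).1
      refine ⟨T, hT, ?_⟩
      rw [← h3]
      ext x
      simp only [mem_inter]
      constructor
      · rintro ⟨h4, h5⟩; exact ⟨h4, h5, hsA h4⟩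
      · rintro ⟨h4, h5, _⟩; exact ⟨h4, h5⟩
  calc _ ≤ ∑ τ ∈ range M, d * (lev τ).card := Finset.sum_le_sum h2
    _ = d * ∑ τ ∈ range M, (lev τ).card := by rw [Finset.mul_sum]
    _ = d * F.card := by
      congr 1
      have : ∀ τ ∈ range M, (lev τ).card = ∑ Q ∈ tr F A, if τ < wt F A Q then 1 else 0 := by
        intro τ _
        rw [← Finset.sum_filter, ← Finset.card_eq_sum_ones]
      rw [Finset.sum_congr rfl this, Finset.sum_comm]
      rw [← sum_wt F A]
      exact Finset.sum_congr rfl fun Q _ => (self_eq_sum M _ (wt_le F A Q)).symm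

/-- the same weight described by the traces on the smaller set -/
def mB (F : Finset (Finset α)) (A : Finset α) (a : α) : ℕ :=
  ∑ Q ∈ tr F A, min ((F.filter (fun S => S ∩ A = Q ∧ a ∈ S)).card)
    ((F.filter (fun S => S ∩ A = Q ∧ a ∉ S)).card)

lemma mB_le_mA (F : Finset (Finset α)) (A : Finset α) (a : α) (ha : a ∉ A) :
    mB F A a ≤ mA F (insert a A) a := by
  have hQa : ∀ Q ∈ tr F A, a ∉ Q := by
    intro Q hQ h
    obtain ⟨T, _, rfl⟩ := Finset.mem_image.1 hQ
    exact ha (Finset.mem_inter.1 h).2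
  have e1 : ∀ Q, a ∉ Q → wt F (insert a A) Q = (F.filter (fun S => S ∩ A = Q ∧ a ∉ S)).card := by
    intro Q hQ
    unfold wt
    congr 1
    ext S
    simp only [mem_filter, and_congr_right_iff]
    intro _
    by_cases haS : a ∈ S
    · rw [Finset.inter_insert_of_mem haS]
      constructor
      · intro h; exact absurd (h ▸ Finset.mem_insert_self a _) hQ
      · rintro ⟨_, h⟩; exact absurd haS h
    · rw [Finset.inter_insert_of_notMem haS]
      simp [haS]
  have e2 : ∀ Q, a ∉ Q → wt F (insert a A) (insert a Q)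
      = (F.filter (fun S => S ∩ A = Q ∧ a ∈ S)).card := by
    intro Q hQ
    unfold wt
    congr 1
    ext S
    simp only [mem_filter, and_congr_right_iff]
    intro _
    by_cases haS : a ∈ S
    · rw [Finset.inter_insert_of_mem haS]
      have h1 : a ∉ S ∩ A := fun h => ha (Finset.mem_inter.1 h).2
      constructor
      · intro h
        refine ⟨?_, haS⟩
        have := congrArg (fun T => T.erase a) h
        simpa [Finset.erase_insert h1, Finset.erase_insert hQ] using this
      · rintro ⟨h, _⟩; rw [h]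
    · rw [Finset.inter_insert_of_notMem haS]
      constructor
      · intro h
        have : a ∈ S ∩ A := h ▸ Finset.mem_insert_self a _
        exact absurd (Finset.mem_inter.1 this).1 haS
      · rintro ⟨_, h⟩; exact absurd h haS
  unfold mB mA
  let g : Finset α → ℕ := fun Q => min ((F.filter (fun S => S ∩ A = Q ∧ a ∈ S)).card)
    ((F.filter (fun S => S ∩ A = Q ∧ a ∉ S)).card)
  have hsub : (tr F A).filter (fun Q => 0 < g Q) ⊆
      (tr F (insert a A)).filter (fun Q => a ∉ Q) := by
    intro Q hQ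
    obtain ⟨h1, h2⟩ := Finset.mem_filter.1 hQ
    have hQ' := hQa Q h1
    refine Finset.mem_filter.2 ⟨wt_pos_mem ?_, hQ'⟩
    rw [e1 Q hQ']
    exact lt_of_lt_of_le h2 (min_le_right _ _)
  have s1 : ∑ Q ∈ tr F A, g Q = ∑ Q ∈ (tr F A).filter (fun Q => 0 < g Q), g Q := by
    rw [Finset.sum_filter]
    refine Finset.sum_congr rfl fun Q _ => ?_
    split_ifs with h
    · rfl
    · omega
  have s2 : ∑ Q ∈ (tr F A).filter (fun Q => 0 < g Q), g Q ≤
      ∑ Q ∈ (tr F (insert a A)).filter (fun Q => a ∉ Q), g Q :=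
    Finset.sum_le_sum_of_subset hsub
  have s3 : ∑ Q ∈ (tr F (insert a A)).filter (fun Q => a ∉ Q), g Q =
      ∑ Q ∈ (tr F (insert a A)).filter (fun Q => a ∉ Q),
        min (wt F (insert a A) Q) (wt F (insert a A) (insert a Q)) := by
    refine Finset.sum_congr rfl fun Q hQ => ?_
    have hQ' := (Finset.mem_filter.1 hQ).2
    rw [e1 Q hQ', e2 Q hQ', min_comm]
  calc _ = ∑ Q ∈ tr F A, g Q := rfl
    _ ≤ _ := by rw [s1]; exact s2.trans s3.le

variable [Fintype α]

/-- one class -/
lemma class_bound (P : Finset (Finset α)) (A : Finset α) (Q : Finset α) (D : ℕ)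
    (hP : ∀ S ∈ P, S ∩ A = Q) (hD : ∀ S ∈ P, ∀ T ∈ P, S ≠ T → D ≤ (symmDiff S T).card)
    (hne : P.Nonempty) :
    D * P.card ≤ 2 * (∑ a ∈ Aᶜ, min ((P.filter (fun S => a ∈ S)).card)
      ((P.filter (fun S => a ∉ S)).card)) + D := by
  classical
  set b := P.card with hb
  have hb0 : 0 < b := Finset.card_pos.2 hne
  -- pairs
  have h1 : ∀ a, (P.filter (fun S => a ∈ S)).card * (P.filter (fun S => a ∉ S)).card
      ≤ b * min ((P.filter (fun S => a ∈ S)).card) ((P.filter (fun S => a ∉ S)).card) := by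
    intro a
    have hx : (P.filter (fun S => a ∈ S)).card ≤ b := Finset.card_le_card (Finset.filter_subset _ _)
    have hy : (P.filter (fun S => a ∉ S)).card ≤ b := Finset.card_le_card (Finset.filter_subset _ _)
    rcases le_total ((P.filter (fun S => a ∈ S)).card) ((P.filter (fun S => a ∉ S)).card) with h | h
    · rw [min_eq_left h, mul_comm]; exact Nat.mul_le_mul_right _ hy
    · rw [min_eq_right h]; exact Nat.mul_le_mul_right _ hx
  have h2 : ∑ a ∈ Aᶜ, (P.filter (fun S => a ∈ S)).card * (P.filter (fun S => a ∉ S)).card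
      = ∑ p ∈ P ×ˢ P, (p.1 \ p.2).card := by
    have e1 : ∀ a, (P.filter (fun S => a ∈ S)).card * (P.filter (fun S => a ∉ S)).card
        = ∑ p ∈ P ×ˢ P, if a ∈ p.1 \ p.2 then 1 else 0 := by
      intro a
      rw [← Finset.card_product, ← Finset.sum_filter, ← Finset.card_eq_sum_ones]
      congr 1
      ext p
      simp only [mem_product, mem_filter, mem_sdiff]
      tauto
    rw [Finset.sum_congr rfl (fun a _ => e1 a), Finset.sum_comm]
    refine Finset.sum_congr rfl fun p hp => ?_
    obtain ⟨hp1, hp2⟩ := Finset.mem_product.1 hp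
    rw [← Finset.sum_filter, ← Finset.card_eq_sum_ones]
    congr 1
    ext a
    simp only [mem_filter, mem_compl, mem_sdiff]
    constructor
    · rintro ⟨_, h⟩; exact h
    · rintro ⟨h3, h4⟩
      refine ⟨fun haA => ?_, h3, h4⟩
      have : a ∈ p.1 ∩ A := Finset.mem_inter.2 ⟨h3, haA⟩
      rw [hP _ hp1, ← hP _ hp2] at this
      exact h4 (Finset.mem_inter.1 this).1
  have h3 : 2 * ∑ p ∈ P ×ˢ P, (p.1 \ p.2).card = ∑ p ∈ P ×ˢ P, (symmDiff p.1 p.2).card := by
    have e2 : ∑ p ∈ P ×ˢ P, (p.1 \ p.2).card = ∑ p ∈ P ×ˢ P, (p.2 \ p.1).card := by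
      rw [Finset.sum_product, Finset.sum_product_right]
    have e3 : ∀ p ∈ P ×ˢ P, (symmDiff p.1 p.2).card = (p.1 \ p.2).card + (p.2 \ p.1).card := by
      intro p _
      rw [symmDiff_def, Finset.sup_eq_union, Finset.card_union_of_disjoint]
      exact disjoint_sdiff_sdiff
    rw [Finset.sum_congr rfl e3, Finset.sum_add_distrib, ← e2]
    ring
  have h4 : D * (b * (b - 1)) ≤ ∑ p ∈ P ×ˢ P, (symmDiff p.1 p.2).card := by
    have e4 : P.offDiag.card = b * (b - 1) := by
      rw [Finset.offDiag_card, ← hb]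
      rw [Nat.mul_sub_one]
    calc D * (b * (b - 1)) = ∑ _p ∈ P.offDiag, D := by
          rw [Finset.sum_const, e4, smul_eq_mul, mul_comm]
      _ ≤ ∑ p ∈ P.offDiag, (symmDiff p.1 p.2).card := by
          refine Finset.sum_le_sum fun p hp => ?_
          obtain ⟨q1, q2, q3⟩ := Finset.mem_offDiag.1 hp
          exact hD _ q1 _ q2 q3
      _ ≤ _ := by
          refine Finset.sum_le_sum_of_subset ?_
          intro p hp
          obtain ⟨q1, q2, _⟩ := Finset.mem_offDiag.1 hp
          exact Finset.mem_product.2 ⟨q1, q2⟩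
  have h5 : b * (D * (b - 1)) ≤ b * (2 * ∑ a ∈ Aᶜ, min ((P.filter (fun S => a ∈ S)).card)
      ((P.filter (fun S => a ∉ S)).card)) := by
    calc b * (D * (b - 1)) = D * (b * (b - 1)) := by ring
      _ ≤ _ := h4
      _ = 2 * ∑ a ∈ Aᶜ, (P.filter (fun S => a ∈ S)).card * (P.filter (fun S => a ∉ S)).card := by
          rw [h2, h3]
      _ ≤ 2 * ∑ a ∈ Aᶜ, b * min ((P.filter (fun S => a ∈ S)).card)
            ((P.filter (fun S => a ∉ S)).card) :=
          Nat.mul_le_mul_left _ (Finset.sum_le_sum fun a _ => h1 a)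
      _ = _ := by rw [← Finset.mul_sum]; ring
  have h6 := Nat.le_of_mul_le_mul_left h5 hb0
  have h7 : D * b = D * (b - 1) + D := by
    obtain ⟨c, hc⟩ : ∃ c, b = c + 1 := ⟨b - 1, by omega⟩
    rw [hc, Nat.add_sub_cancel]; ring
  rw [h7]
  exact Nat.add_le_add_right h6 _

lemma sum_mB_ge (F : Finset (Finset α)) (A : Finset α) (D : ℕ)
    (hD : ∀ S ∈ F, ∀ T ∈ F, S ≠ T → D ≤ (symmDiff S T).card) :
    D * F.card ≤ 2 * (∑ a ∈ Aᶜ, mB F A a) + D * (tr F A).card := by
  have h1 : ∑ a ∈ Aᶜ, mB F A a = ∑ Q ∈ tr F A, ∑ a ∈ Aᶜ,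
      min (((F.filter (fun S => S ∩ A = Q)).filter (fun S => a ∈ S)).card)
        (((F.filter (fun S => S ∩ A = Q)).filter (fun S => a ∉ S)).card) := by
    unfold mB
    rw [Finset.sum_comm]
    refine Finset.sum_congr rfl fun Q _ => Finset.sum_congr rfl fun a _ => ?_
    rw [Finset.filter_filter, Finset.filter_filter]
  have h2 : ∀ Q ∈ tr F A, D * wt F A Q ≤ 2 * (∑ a ∈ Aᶜ,
      min (((F.filter (fun S => S ∩ A = Q)).filter (fun S => a ∈ S)).card)
        (((F.filter (fun S => S ∩ A = Q)).filter (fun S => a ∉ S)).card)) + D := by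
    intro Q hQ
    refine class_bound (F.filter (fun S => S ∩ A = Q)) A Q D ?_ ?_ ?_
    · intro S hS; exact (Finset.mem_filter.1 hS).2
    · intro S hS T hT
      exact hD S (Finset.mem_filter.1 hS).1 T (Finset.mem_filter.1 hT).1
    · obtain ⟨S, hS, h3⟩ := Finset.mem_image.1 hQ
      exact ⟨S, Finset.mem_filter.2 ⟨hS, h3⟩⟩
  calc D * F.card = ∑ Q ∈ tr F A, D * wt F A Q := by rw [← Finset.mul_sum, sum_wt]
    _ ≤ ∑ Q ∈ tr F A, (2 * (∑ a ∈ Aᶜ,
      min (((F.filter (fun S => S ∩ A = Q)).filter (fun S => a ∈ S)).card)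
        (((F.filter (fun S => S ∩ A = Q)).filter (fun S => a ∉ S)).card)) + D) :=
        Finset.sum_le_sum h2
    _ = _ := by
        rw [Finset.sum_add_distrib, ← Finset.mul_sum, ← h1, Finset.sum_const, smul_eq_mul,
          mul_comm D (tr F A).card]

lemma double_count (t : ℕ) (f : Finset α → α → ℕ) :
    ∑ A ∈ powersetCard (t + 1) (univ : Finset α), ∑ a ∈ A, f A a
      = ∑ A ∈ powersetCard t (univ : Finset α), ∑ a ∈ Aᶜ, f (insert a A) a := by
  rw [Finset.sum_sigma', Finset.sum_sigma']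
  refine Finset.sum_bij' (fun x _ => ⟨x.1.erase x.2, x.2⟩) (fun y _ => ⟨insert y.2 y.1, y.2⟩)
    ?_ ?_ ?_ ?_ ?_
  · rintro ⟨A, a⟩ h
    simp only [mem_sigma, mem_powersetCard_univ, mem_compl] at h ⊢
    refine ⟨?_, Finset.notMem_erase a A⟩
    rw [Finset.card_erase_of_mem h.2, h.1]; rfl
  · rintro ⟨A, a⟩ h
    simp only [mem_sigma, mem_powersetCard_univ, mem_compl] at h ⊢
    refine ⟨?_, Finset.mem_insert_self a A⟩
    rw [Finset.card_insert_of_notMem h.2, h.1]
  · rintro ⟨A, a⟩ h
    simp only [mem_sigma, mem_powersetCard_univ] at h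
    simp [Finset.insert_erase h.2]
  · rintro ⟨A, a⟩ h
    simp only [mem_sigma, mem_powersetCard_univ, mem_compl] at h
    simp [Finset.erase_insert h.2]
  · rintro ⟨A, a⟩ h
    simp only [mem_sigma, mem_powersetCard_univ] at h
    simp [Finset.insert_erase h.2]

/-- Haussler's packing lemma. -/
theorem packing (F : Finset (Finset α)) (d t D π : ℕ) (ht : t + 1 ≤ Fintype.card α)
    (hd : ∀ s, F.Shatters s → s.card ≤ d)
    (hD : ∀ S ∈ F, ∀ T ∈ F, S ≠ T → D ≤ (symmDiff S T).card)
    (hπ : ∀ A : Finset α, A.card = t → (tr F A).card ≤ π)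
    (h : 4 * d * Fintype.card α ≤ (t + 1) * D) (hD0 : 0 < D) : F.card ≤ 2 * π := by
  set N := Fintype.card α with hN
  have up : ∑ A ∈ powersetCard (t + 1) (univ : Finset α), ∑ a ∈ A, mA F A a
      ≤ N.choose (t + 1) * (d * F.card) := by
    calc _ ≤ ∑ _A ∈ powersetCard (t + 1) (univ : Finset α), d * F.card :=
          Finset.sum_le_sum fun A _ => sum_mA_le F A d hd
      _ = _ := by rw [Finset.sum_const, Finset.card_powersetCard, smul_eq_mul, Finset.card_univ]
  rw [double_count] at up
  have lo : N.choose t * (D * F.card) ≤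
      2 * (∑ A ∈ powersetCard t (univ : Finset α), ∑ a ∈ Aᶜ, mA F (insert a A) a)
        + N.choose t * (D * π) := by
    calc N.choose t * (D * F.card) = ∑ _A ∈ powersetCard t (univ : Finset α), D * F.card := by
          rw [Finset.sum_const, Finset.card_powersetCard, smul_eq_mul, Finset.card_univ]
      _ ≤ ∑ A ∈ powersetCard t (univ : Finset α),
            (2 * (∑ a ∈ Aᶜ, mA F (insert a A) a) + D * π) := by
          refine Finset.sum_le_sum fun A hA => ?_
          have hA' := Finset.mem_powersetCard_univ.1 hA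
          calc D * F.card ≤ _ := sum_mB_ge F A D hD
            _ ≤ _ := by
              refine Nat.add_le_add ?_ (Nat.mul_le_mul_left _ (hπ A hA'))
              refine Nat.mul_le_mul_left _ (Finset.sum_le_sum fun a ha => ?_)
              exact mB_le_mA F A a (Finset.mem_compl.1 ha)
      _ = _ := by
          rw [Finset.sum_add_distrib, ← Finset.mul_sum, Finset.sum_const, Finset.card_powersetCard,
            smul_eq_mul, Finset.card_univ]
  have hch : N.choose (t + 1) * (t + 1) = N.choose t * (N - t) := Nat.choose_succ_right_eq N t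
  have hpos : 0 < N.choose t := Nat.choose_pos (by omega)
  have h1 : N.choose t * ((t + 1) * (D * F.card)) ≤
      N.choose t * (2 * (N - t) * (d * F.card) + (t + 1) * (D * π)) := by
    calc N.choose t * ((t + 1) * (D * F.card)) = (t + 1) * (N.choose t * (D * F.card)) := by ring
      _ ≤ (t + 1) * (2 * (N.choose (t + 1) * (d * F.card)) + N.choose t * (D * π)) := by
          refine Nat.mul_le_mul_left _ (lo.trans ?_)
          exact Nat.add_le_add_right (Nat.mul_le_mul_left _ up) _
      _ = 2 * (N.choose (t + 1) * (t + 1)) * (d * F.card) + N.choose t * ((t + 1) * (D * π)) := by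
          ring
      _ = _ := by rw [hch]; ring
  have h2 := Nat.le_of_mul_le_mul_left h1 hpos
  have h3 : 2 * (2 * (N - t) * (d * F.card)) ≤ (t + 1) * D * F.card := by
    calc 2 * (2 * (N - t) * (d * F.card)) = 4 * d * (N - t) * F.card := by ring
      _ ≤ 4 * d * N * F.card := by
          refine Nat.mul_le_mul_right _ (Nat.mul_le_mul_left _ (Nat.sub_le _ _))
      _ ≤ _ := Nat.mul_le_mul_right _ h
  have h4 : (t + 1) * D * F.card ≤ (t + 1) * D * (2 * π) := by
    have e : (t + 1) * (D * F.card) = (t + 1) * D * F.card := by ring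
    rw [e] at h2
    have e' : (t + 1) * (D * π) = (t + 1) * D * π := by ring
    rw [e'] at h2
    have : (t + 1) * D * (2 * π) = 2 * ((t + 1) * D * π) := by ring
    rw [this]
    omega
  exact Nat.le_of_mul_le_mul_left h4 (by positivity)

end Pool.Agent.Helper39.TC
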