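import Mathlib
import Pool.Agent.Helper39.TC.Pack

/-! Codes over a finite alphabet with linearly many traces and large minimum distance are small. -/

namespace Pool.Agent.Helper39.TC

open Finset

set_option linter.unusedSectionVars false

variable {κ : Type*} [Fintype κ] [DecidableEq κ] {F : Type*} [Fintype F] [DecidableEq F] [Zero F]

/-- graph of a word -/
def gr (u : κ → F) : Finset (κ × F) := univ.filter (fun p => u p.1 = p.2)

/-- restriction of a word to a set of positions (zero elsewhere) -/
def res (T : Finset κ) (u : κ → F) : κ → F := fun i => if i ∈ T then u i else 0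

lemma mem_gr {u : κ → F} {p : κ × F} : p ∈ gr u ↔ u p.1 = p.2 := by simp [gr]

lemma gr_injective : Function.Injective (gr : (κ → F) → Finset (κ × F)) := by
  intro u v h
  funext i
  have : (i, v i) ∈ gr u := by rw [h, mem_gr]
  exact mem_gr.1 this

lemma dist_le (u v : κ → F) :
    (univ.filter (fun i => u i ≠ v i)).card ≤ (symmDiff (gr u) (gr v)).card := by
  refine Finset.card_le_card_of_injOn (fun i => (i, u i)) ?_ ?_
  · intro i hi
    have hi' : u i ≠ v i := (Finset.mem_filter.1 (Finset.mem_coe.1 hi)).2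
    rw [Finset.mem_coe, Finset.mem_symmDiff]
    left
    refine ⟨mem_gr.2 rfl, fun h => hi' ?_⟩
    exact (mem_gr.1 h).symm
  · intro i _ j _ h
    exact (Prod.mk.inj h).1

lemma card_tr_le (C : Finset (κ → F)) (A : Finset (κ × F)) :
    (tr (C.image gr) A).card ≤ (C.image (res (A.image Prod.fst))).card := by
  set T := A.image Prod.fst with hT
  have : tr (C.image gr) A = (C.image (res T)).image (fun w => A.filter (fun p => w p.1 = p.2)) := by
    unfold tr
    rw [Finset.image_image, Finset.image_image]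
    refine Finset.image_congr fun u _ => ?_
    ext p
    simp only [Function.comp, mem_inter, mem_filter, mem_gr]
    constructor
    · rintro ⟨h1, h2⟩
      refine ⟨h2, ?_⟩
      have : p.1 ∈ T := Finset.mem_image_of_mem _ h2
      simp [res, this, h1]
    · rintro ⟨h1, h2⟩
      have : p.1 ∈ T := Finset.mem_image_of_mem _ h1
      simp only [res, this, if_true] at h2
      exact ⟨h2, h1⟩
  rw [this]
  exact Finset.card_image_le

lemma two_pow_bound (K m : ℕ) (h : 2 ^ m ≤ K * m + 1) : m ≤ 4 * K + 4 := by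
  have h1 : m / 2 + 1 ≤ 2 ^ (m / 2) := Nat.lt_two_pow_self
  have h2 : (m - m / 2) + 1 ≤ 2 ^ (m - m / 2) := Nat.lt_two_pow_self
  have h3 : 2 ^ m = 2 ^ (m / 2) * 2 ^ (m - m / 2) := by
    rw [← pow_add]; congr 1; omega
  have h4 : (m / 2 + 1) * ((m - m / 2) + 1) ≤ 2 ^ m := by
    rw [h3]; exact Nat.mul_le_mul h1 h2
  have h5 : m + 1 ≤ 2 * (m / 2 + 1) := by omega
  have h6 : m + 2 ≤ 2 * ((m - m / 2) + 1) := by omega
  have h7 : (m + 1) * (m + 2) ≤ 4 * 2 ^ m := by
    calc (m + 1) * (m + 2) ≤ (2 * (m / 2 + 1)) * (2 * ((m - m / 2) + 1)) := Nat.mul_le_mul h5 h6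
      _ = 4 * ((m / 2 + 1) * ((m - m / 2) + 1)) := by ring
      _ ≤ _ := Nat.mul_le_mul_left _ h4
  have h8 : (m + 1) * (m + 2) ≤ 4 * (K * m + 1) := h7.trans (Nat.mul_le_mul_left _ h)
  by_contra hcon
  push Not at hcon
  nlinarith

theorem code_bound (C : Finset (κ → F)) (K δ : ℕ) (hK : 1 ≤ K)
    (hκ : 1 ≤ Fintype.card κ) (hF : 2 ≤ Fintype.card F)
    (hres : ∀ T : Finset κ, (C.image (res T)).card ≤ K * T.card + 1)
    (hdist : ∀ u ∈ C, ∀ v ∈ C, u ≠ v → δ ≤ (univ.filter (fun i => u i ≠ v i)).card)
    (hδ : 16 * K * (4 * K + 4) * Fintype.card F ≤ δ) : 2 * C.card ≤ Fintype.card κ + 4 := by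
  set q := Fintype.card F with hq
  set r := Fintype.card κ with hr
  set d := 4 * K + 4 with hd
  set N := Fintype.card (κ × F) with hN
  have hNr : N = r * q := by rw [hN, Fintype.card_prod]
  set t := 4 * d * N / δ with ht
  have hd0 : 8 ≤ d := by omega
  have hδ0 : 0 < δ := by
    have : 0 < 16 * K * d * q := by positivity
    omega
  have htδ : t * δ ≤ 4 * d * N := Nat.div_mul_le_self _ _
  have htδ2 : 4 * d * N ≤ (t + 1) * δ := by
    rw [ht]
    have h2 := Nat.lt_mul_div_succ (4 * d * N) hδ0
    rw [mul_comm (4 * d * N / δ + 1) δ]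
    exact h2.le
  have hKt : 4 * K * t ≤ r := by
    have h1 : (16 * K * d * q) * t ≤ 4 * d * (r * q) := by
      rw [← hNr]
      calc (16 * K * d * q) * t ≤ δ * t := Nat.mul_le_mul_right _ hδ
        _ = t * δ := mul_comm _ _
        _ ≤ _ := htδ
    have h2 : (4 * d * q) * (4 * K * t) ≤ (4 * d * q) * r := by
      calc _ = (16 * K * d * q) * t := by ring
        _ ≤ _ := h1
        _ = _ := by ring
    exact Nat.le_of_mul_le_mul_left h2 (by positivity)
  have htN : t + 1 ≤ N := by
    rw [hNr]
    have : t ≤ r := by nlinarith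
    nlinarith
  have hVC : ∀ s, (C.image gr).Shatters s → s.card ≤ d := by
    intro s hs
    refine two_pow_bound K s.card ?_
    have h1 : (tr (C.image gr) s).card = 2 ^ s.card := by
      rw [← Finset.card_powerset, ← Finset.shatters_iff.1 hs]
      unfold tr
      congr 1
      refine Finset.image_congr fun S _ => ?_
      exact Finset.inter_comm _ _
    rw [← h1]
    calc _ ≤ _ := card_tr_le C s
      _ ≤ K * (s.image Prod.fst).card + 1 := hres _
      _ ≤ _ := by
        have : (s.image Prod.fst).card ≤ s.card := Finset.card_image_le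
        gcongr
  have main := packing (C.image gr) d t δ (K * t + 1) htN hVC ?_ ?_ htδ2 hδ0
  · rw [Finset.card_image_of_injective _ gr_injective] at main
    calc 2 * C.card ≤ 2 * (2 * (K * t + 1)) := Nat.mul_le_mul_left _ main
      _ = 4 * K * t + 4 := by ring
      _ ≤ _ := Nat.add_le_add_right hKt _
  · intro S hS T hT hST
    obtain ⟨u, hu, rfl⟩ := Finset.mem_image.1 hS
    obtain ⟨v, hv, rfl⟩ := Finset.mem_image.1 hT
    exact (hdist u hu v hv (fun h => hST (by rw [h]))).trans (dist_le u v)
  · intro A hA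
    calc _ ≤ _ := card_tr_le C A
      _ ≤ K * (A.image Prod.fst).card + 1 := hres _
      _ ≤ _ := by
        have : (A.image Prod.fst).card ≤ t := hA ▸ Finset.card_image_le
        gcongr

end Pool.Agent.Helper39.TC
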