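import Mathlib

/-! Represented matroids over a field, as row spaces. -/

namespace Pool.Agent.Helper39.TC

open Finset

variable {F : Type} [Field F]

/-- A represented matroid over `F` with ground set `Fin n` is a subspace of `Fin n → F`, the row
space of a representing matrix. A class of represented matroids. -/
abbrev MClass (F : Type) [Field F] := ∀ n : ℕ, Submodule F (Fin n → F) → Prop

/-- The represented matroid `M(A)` of a matrix: the row space of `A`. -/
def rowSpace {m n : ℕ} (A : Matrix (Fin m) (Fin n) F) : Submodule F (Fin n → F) :=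
  Submodule.span F (Set.range fun i => A i)

/-- The dual: the orthogonal complement of the row space. -/
def dual {n : ℕ} (U : Submodule F (Fin n → F)) : Submodule F (Fin n → F) where
  carrier := {v | ∀ u ∈ U, ∑ i, u i * v i = 0}
  add_mem' := by
    intro a b ha hb u hu
    simp only [Pi.add_apply, mul_add, Finset.sum_add_distrib, ha u hu, hb u hu, add_zero]
  zero_mem' := by intro u _; simp
  smul_mem' := by
    intro c a ha u hu
    have : ∑ i, u i * (c • a) i = c * ∑ i, u i * a i := by
      rw [Finset.mul_sum]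
      exact Finset.sum_congr rfl fun i _ => by simp [smul_eq_mul]; ring
    rw [this, ha u hu, mul_zero]

/-- The minor obtained by contracting `C` and deleting all elements which are neither in `C` nor
in the range of `f`; its elements are relabelled along `f`. -/
def minor {m n : ℕ} (U : Submodule F (Fin n → F)) (f : Fin m ↪ Fin n) (C : Set (Fin n)) :
    Submodule F (Fin m → F) where
  carrier := {w | ∃ u ∈ U, (∀ c ∈ C, u c = 0) ∧ ∀ j, w j = u (f j)}
  add_mem' := by
    rintro a b ⟨u, hu, h1, h2⟩ ⟨v, hv, h3, h4⟩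
    exact ⟨u + v, U.add_mem hu hv, fun c hc => by simp [h1 c hc, h3 c hc],
      fun j => by simp [h2 j, h4 j]⟩
  zero_mem' := ⟨0, U.zero_mem, fun _ _ => rfl, fun _ => rfl⟩
  smul_mem' := by
    rintro c a ⟨u, hu, h1, h2⟩
    exact ⟨c • u, U.smul_mem c hu, fun x hx => by simp [h1 x hx], fun j => by simp [h2 j]⟩

/-- Closed under minors and isomorphism. -/
def MinorClosed (𝓜 : MClass F) : Prop :=
  ∀ (n : ℕ) (U : Submodule F (Fin n → F)), 𝓜 n U →
    ∀ (m : ℕ) (f : Fin m ↪ Fin n) (C : Set (Fin n)), (∀ j, f j ∉ C) → 𝓜 m (minor U f C)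

/-- The class of the duals of the members. -/
def dualClass (𝓜 : MClass F) : MClass F := fun _ U => 𝓜 _ (dual U)

/-- Rank of a set of elements: dimension of the restriction of the row space to it. -/
noncomputable def rk {n : ℕ} (U : Submodule F (Fin n → F)) (X : Finset (Fin n)) : ℕ :=
  Module.finrank F (U.map (LinearMap.funLeft F F (fun x : X => (x : Fin n))))

/-- Tutte `k`-connected. -/
def TutteConn {n : ℕ} (k : ℕ) (U : Submodule F (Fin n → F)) : Prop :=
  ∀ ℓ < k, ∀ X : Finset (Fin n), ℓ ≤ X.card → ℓ ≤ Xᶜ.card →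
    rk U Finset.univ + ℓ ≤ rk U X + rk U Xᶜ

/-- Simple: no circuits with at most two elements. -/
def IsSimple {n : ℕ} (U : Submodule F (Fin n → F)) : Prop :=
  ∀ X : Finset (Fin n), X.card ≤ 2 → rk U X = X.card

/-- Simple members have at most `L` times as many elements as their rank. -/
def LinearGrowth (L : ℕ) (𝓜 : MClass F) : Prop :=
  ∀ (n : ℕ) (U : Submodule F (Fin n → F)), 𝓜 n U → IsSimple U → n ≤ L * rk U Finset.univ

/-- `V` is a rank-(at most `t`) perturbation of `N`. -/
def IsPerturbation {n : ℕ} (t : ℕ) (N V : Submodule F (Fin n → F)) : Prop :=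
  ∃ (m : ℕ) (A P : Matrix (Fin m) (Fin n) F), rowSpace A = N ∧ P.rank ≤ t ∧ rowSpace (A + P) = V

/-- Represented frame matroid. -/
def IsFrame {n : ℕ} (N : Submodule F (Fin n → F)) : Prop :=
  ∃ (m : ℕ) (A : Matrix (Fin m) (Fin n) F), rowSpace A = N ∧
    ∀ j, {i | A i j ≠ 0}.ncard ≤ 2

/-- Confined to a proper subfield. -/
def IsConfined {n : ℕ} (N : Submodule F (Fin n → F)) : Prop :=
  ∃ K : Subfield F, K ≠ ⊤ ∧ ∃ (m : ℕ) (A : Matrix (Fin m) (Fin n) F), rowSpace A = N ∧
    ∀ i j, A i j ∈ K

/-- `U` is the represented matroid `M(K_m)` of the complete graph on `m` vertices: up to a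
bijection `g` of the ground set with the edges (pairs of vertices), the row space of the signed
incidence matrix, that is, the set of all vectors `x ↦ p (head of x) - p (tail of x)`. -/
def IsClique (m : ℕ) {n : ℕ} (U : Submodule F (Fin n → F)) : Prop :=
  ∃ g : Fin n ≃ {p : Fin m × Fin m // p.1 < p.2},
    ∀ u : Fin n → F, u ∈ U ↔ ∃ p : Fin m → F, ∀ x, u x = p (g x).1.2 - p (g x).1.1

/-- The conclusion of the question for a class of represented matroids. -/
def HasStructure (𝓜 : MClass F) : Prop :=
  ∃ k t : ℕ, ∀ (n : ℕ) (U : Submodule F (Fin n → F)), 𝓜 n U → TutteConn k U →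
    ∃ N : Submodule F (Fin n → F), IsPerturbation t N U ∧
      (IsFrame N ∨ IsFrame (dual N) ∨ IsConfined N)

end Pool.Agent.Helper39.TC
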