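import Mathlib
import Pool.Agent.Helper39.TC.Defs

/-! Linear algebra of represented matroids. -/

namespace Pool.Agent.Helper39.TC

open Finset

variable {F : Type} [Field F]

lemma mem_dual {n : ℕ} {U : Submodule F (Fin n → F)} {v : Fin n → F} :
    v ∈ dual U ↔ ∀ u ∈ U, ∑ i, u i * v i = 0 := Iff.rfl

lemma mem_minor {m n : ℕ} {U : Submodule F (Fin n → F)} {f : Fin m ↪ Fin n} {C : Set (Fin n)}
    {w : Fin m → F} :
    w ∈ minor U f C ↔ ∃ u ∈ U, (∀ c ∈ C, u c = 0) ∧ ∀ j, w j = u (f j) := Iff.rfl

/-- coordinate functional on U -/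
def cf {n : ℕ} (U : Submodule F (Fin n → F)) (e : Fin n) : U →ₗ[F] F :=
  (LinearMap.proj e : (Fin n → F) →ₗ[F] F) ∘ₗ U.subtype

lemma cf_apply {n : ℕ} (U : Submodule F (Fin n → F)) (e : Fin n) (u : U) :
    cf U e u = (u : Fin n → F) e := rfl

lemma span_cf {n : ℕ} (U : Submodule F (Fin n → F)) :
    Submodule.span F (Set.range (cf U)) = ⊤ := by
  rw [eq_top_iff]
  intro φ _
  refine mem_span_of_iInf_ker_le_ker ?_
  intro u hu
  have : u = 0 := by
    apply Subtype.ext
    funext e
    have := (Submodule.mem_iInf _).1 hu e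
    exact LinearMap.mem_ker.1 this
  rw [this]
  exact Submodule.zero_mem _

/-- the pairing map -/
def pairing {n : ℕ} (U : Submodule F (Fin n → F)) : (Fin n → F) →ₗ[F] (U →ₗ[F] F) where
  toFun v :=
    { toFun := fun u => ∑ i, (u : Fin n → F) i * v i
      map_add' := by intro a b; simp [add_mul, Finset.sum_add_distrib]
      map_smul' := by
        intro c a
        simp only [Submodule.coe_smul, Pi.smul_apply, smul_eq_mul, RingHom.id_apply,
          Finset.mul_sum, mul_assoc] }
  map_add' := by
    intro a b; ext u; simp [mul_add, Finset.sum_add_distrib]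
  map_smul' := by
    intro c a; ext u
    simp only [Pi.smul_apply, smul_eq_mul, LinearMap.coe_mk, AddHom.coe_mk, RingHom.id_apply,
      LinearMap.smul_apply, Finset.mul_sum]
    exact Finset.sum_congr rfl fun i _ => by ring

lemma pairing_apply {n : ℕ} (U : Submodule F (Fin n → F)) (v : Fin n → F) (u : U) :
    pairing U v u = ∑ i, (u : Fin n → F) i * v i := rfl

lemma ker_pairing {n : ℕ} (U : Submodule F (Fin n → F)) : LinearMap.ker (pairing U) = dual U := by
  ext v
  rw [LinearMap.mem_ker, mem_dual]
  constructor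
  · intro h u hu
    have := congrArg (fun φ => φ ⟨u, hu⟩) h
    simpa [pairing_apply] using this
  · intro h
    ext u
    rw [pairing_apply]
    simpa using h u u.2

lemma range_pairing {n : ℕ} (U : Submodule F (Fin n → F)) : LinearMap.range (pairing U) = ⊤ := by
  rw [eq_top_iff, ← span_cf U, Submodule.span_le]
  rintro _ ⟨e, rfl⟩
  refine ⟨Pi.single e 1, ?_⟩
  ext u
  rw [pairing_apply, cf_apply, Finset.sum_eq_single e]
  · simp
  · intro b _ hb; simp [Pi.single_eq_of_ne hb]
  · intro h; exact absurd (Finset.mem_univ _) h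

lemma finrank_dual {n : ℕ} (U : Submodule F (Fin n → F)) :
    Module.finrank F U + Module.finrank F (dual U) = n := by
  have h := LinearMap.finrank_range_add_finrank_ker (pairing U)
  rw [range_pairing, ker_pairing, finrank_top, Module.finrank_fin_fun] at h
  have h2 : Module.finrank F (U →ₗ[F] F) = Module.finrank F U :=
    Subspace.dual_finrank_eq (K := F) (V := U)
  rw [h2] at h
  exact h

lemma dual_dual {n : ℕ} (U : Submodule F (Fin n → F)) : dual (dual U) = U := by
  symm
  refine Submodule.eq_of_le_of_finrank_eq ?_ ?_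
  · intro u hu v hv
    have := hv u hu
    rw [← this]
    exact Finset.sum_congr rfl fun i _ => mul_comm _ _
  · have h1 := finrank_dual U
    have h2 := finrank_dual (dual U)
    omega

/-- elements deleted by a minor -/
def coSet {m n : ℕ} (f : Fin m ↪ Fin n) (C : Set (Fin n)) : Set (Fin n) :=
  {x | x ∉ Set.range f ∧ x ∉ C}

lemma dual_minor {m n : ℕ} (V : Submodule F (Fin n → F)) (f : Fin m ↪ Fin n) (C : Set (Fin n))
    (hfC : ∀ j, f j ∉ C) : dual (minor V f C) = minor (dual V) f (coSet f C) := by
  classical
  have sumf : ∀ g : Fin n → F, (∀ x, x ∉ Set.range f → g x = 0) → ∑ x, g x = ∑ j, g (f j) := by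
    intro g hg
    rw [← Finset.sum_map Finset.univ f g]
    symm
    refine Finset.sum_subset (Finset.subset_univ _) fun x _ hx => hg x ?_
    rintro ⟨j, rfl⟩
    exact hx (Finset.mem_map_of_mem f (Finset.mem_univ j))
  ext w
  constructor
  · intro hw
    -- functional on V
    let w' : Fin n → F := fun x => ∑ j, if f j = x then w j else 0
    have hw'f : ∀ j, w' (f j) = w j := by
      intro j
      simp only [w']
      rw [Finset.sum_eq_single j]
      · simp
      · intro b _ hb
        rw [if_neg (fun h => hb (f.injective h))]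
      · intro h; exact absurd (Finset.mem_univ _) h
    have hw'0 : ∀ x, x ∉ Set.range f → w' x = 0 := by
      intro x hx
      simp only [w']
      refine Finset.sum_eq_zero fun j _ => if_neg fun h => hx ⟨j, h⟩
    have hφ : pairing V w' ∈ Submodule.span F (Set.range fun c : C => cf V (c : Fin n)) := by
      refine mem_span_of_iInf_ker_le_ker ?_
      intro v hv
      rw [LinearMap.mem_ker, pairing_apply]
      have hv0 : ∀ c ∈ C, (v : Fin n → F) c = 0 := by
        intro c hc
        have := (Submodule.mem_iInf _).1 hv ⟨c, hc⟩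
        exact LinearMap.mem_ker.1 this
      rw [sumf _ (fun x hx => by rw [hw'0 x hx, mul_zero])]
      have := hw (fun j => (v : Fin n → F) (f j)) ⟨v, v.2, hv0, fun _ => rfl⟩
      rw [← this]
      exact Finset.sum_congr rfl fun j _ => by rw [hw'f]
    have : Fintype C := Fintype.ofFinite _
    obtain ⟨α, hα⟩ := (Submodule.mem_span_range_iff_exists_fun F).1 hφ
    let β : Fin n → F := fun x => if h : x ∈ C then α ⟨x, h⟩ else 0
    refine ⟨fun x => w' x - β x, ?_, ?_, ?_⟩
    · intro v hv
      have h1 := congrArg (fun φ => φ (⟨v, hv⟩ : V)) hα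
      simp only [LinearMap.coe_sum, Finset.sum_apply, LinearMap.smul_apply, cf_apply,
        pairing_apply, smul_eq_mul] at h1
      have h2 : ∑ x, v x * β x = ∑ c : C, α c * v c := by
        have e1 : ∑ x, v x * β x = ∑ x ∈ (Finset.univ.filter (fun x => x ∈ C)), v x * β x := by
          rw [Finset.sum_filter]
          refine Finset.sum_congr rfl fun x _ => ?_
          split_ifs with h
          · rfl
          · simp [β, h]
        rw [e1, ← Finset.sum_subtype (Finset.univ.filter (fun x => x ∈ C)) (p := fun x => x ∈ C)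
          (by intro x; simp) (fun x => v x * β x) |>.symm]
        refine Finset.sum_congr rfl fun c _ => ?_
        simp only [β, c.2, dif_pos]
        ring
      simp only [mul_sub, Finset.sum_sub_distrib]
      rw [h2, h1]
      simp
    · rintro x ⟨hx1, hx2⟩
      simp [hw'0 x hx1, β, hx2]
    · intro j
      simp [hw'f, β, hfC j]
  · rintro ⟨v', hv', h1, h2⟩ u ⟨v, hv, h3, h4⟩
    have h5 := hv' v hv
    rw [sumf] at h5
    · rw [← h5]
      exact Finset.sum_congr rfl fun j _ => by rw [h4 j, h2 j]
    · intro x hx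
      by_cases hxC : x ∈ C
      · rw [h3 x hxC, zero_mul]
      · rw [h1 x ⟨hx, hxC⟩, mul_zero]

end Pool.Agent.Helper39.TC
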