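import Mathlib
import Pool.Agent.Helper39.TC.Lin

/-! Ranks; girth and cogirth of highly connected represented matroids. -/

namespace Pool.Agent.Helper39.TC

open Finset

variable {F : Type} [Field F]

/-- restriction to a set of elements -/
def rst {n : ℕ} (X : Finset (Fin n)) : (Fin n → F) →ₗ[F] (X → F) :=
  LinearMap.funLeft F F (fun x : X => (x : Fin n))

lemma rst_apply {n : ℕ} (X : Finset (Fin n)) (u : Fin n → F) (x : X) : rst X u x = u x := rfl

lemma rk_def {n : ℕ} (U : Submodule F (Fin n → F)) (X : Finset (Fin n)) :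
    rk U X = Module.finrank F (U.map (rst X)) := rfl

lemma rk_le_card {n : ℕ} (U : Submodule F (Fin n → F)) (X : Finset (Fin n)) :
    rk U X ≤ X.card := by
  rw [rk_def]
  refine (Submodule.finrank_le _).trans ?_
  rw [Module.finrank_fintype_fun_eq_card, Fintype.card_coe]

lemma rk_le_finrank {n : ℕ} (U : Submodule F (Fin n → F)) (X : Finset (Fin n)) :
    rk U X ≤ Module.finrank F U := Submodule.finrank_map_le _ _

lemma rk_univ {n : ℕ} (U : Submodule F (Fin n → F)) :
    rk U Finset.univ = Module.finrank F U := by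
  rw [rk_def]
  have hinj : Function.Injective (rst (F := F) (Finset.univ : Finset (Fin n))) := by
    intro a b h
    funext i
    exact congrFun h ⟨i, Finset.mem_univ i⟩
  exact (Submodule.equivMapOfInjective _ hinj U).finrank_eq.symm

lemma rk_lt_of_dep {n : ℕ} (U : Submodule F (Fin n → F)) (X : Finset (Fin n)) (c : X → F)
    (hc : c ≠ 0) (h : ∀ u ∈ U, ∑ x : X, c x * u x = 0) : rk U X < X.card := by
  classical
  rw [rk_def]
  have hlt : U.map (rst X) < ⊤ := by
    rw [lt_top_iff_ne_top]
    intro htop
    obtain ⟨x, hx⟩ := Function.ne_iff.1 hc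
    have : (Pi.single x 1 : X → F) ∈ U.map (rst X) := by rw [htop]; exact Submodule.mem_top
    obtain ⟨u, hu, h1⟩ := this
    have h2 := h u hu
    have h3 : ∑ y : X, c y * u y = c x := by
      rw [Finset.sum_eq_single x]
      · have : u x = (Pi.single x 1 : X → F) x := by rw [← h1]; rfl
        rw [this]; simp
      · intro y _ hy
        have : u y = (Pi.single x 1 : X → F) y := by rw [← h1]; rfl
        rw [this]; simp [Pi.single_eq_of_ne hy]
      · intro h; exact absurd (Finset.mem_univ _) h
    rw [h3] at h2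
    exact hx h2
  have := Submodule.finrank_lt hlt.ne
  rwa [Module.finrank_fintype_fun_eq_card, Fintype.card_coe] at this

lemma rk_eq_card {n : ℕ} (U : Submodule F (Fin n → F)) (X : Finset (Fin n))
    (h : ∀ c : X → F, (∀ u ∈ U, ∑ x : X, c x * u x = 0) → c = 0) : rk U X = X.card := by
  classical
  rw [rk_def]
  have htop : U.map (rst X) = ⊤ := by
    by_contra hne
    obtain ⟨φ, hφ0, hφ⟩ := Submodule.exists_le_ker_of_lt_top (U.map (rst X))
      (lt_top_iff_ne_top.2 hne)
    apply hφ0
    have hsum : ∀ w : X → F, φ w = ∑ x : X, φ (Pi.single x 1) * w x := by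
      intro w
      conv_lhs => rw [← Finset.univ_sum_single w]
      rw [map_sum]
      refine Finset.sum_congr rfl fun x _ => ?_
      have : (Pi.single x (w x) : X → F) = w x • Pi.single x 1 := by
        rw [← Pi.single_smul]; simp
      rw [this, map_smul, smul_eq_mul, mul_comm]
    have h0 := h (fun x => φ (Pi.single x 1)) (fun u hu => by
      have h1 : φ (rst X u) = 0 := hφ (Submodule.mem_map_of_mem hu)
      rw [hsum] at h1
      exact h1)
    ext x
    simpa using congrFun h0 x
  rw [htop, finrank_top, Module.finrank_fintype_fun_eq_card, Fintype.card_coe]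

lemma rk_lt_of_mem {n : ℕ} (U : Submodule F (Fin n → F)) (X : Finset (Fin n)) (c : Fin n → F)
    (hcU : c ∈ U) (hc : c ≠ 0) (h : ∀ x ∈ X, c x = 0) : rk U X < Module.finrank F U := by
  rw [rk_def]
  have h1 := LinearMap.finrank_range_add_finrank_ker ((rst X : (Fin n → F) →ₗ[F] (X → F)).domRestrict U)
  have h2 : LinearMap.range ((rst X : (Fin n → F) →ₗ[F] (X → F)).domRestrict U) = U.map (rst X) := by
    rw [LinearMap.range_domRestrict]
  rw [h2] at h1
  have hk : (⟨c, hcU⟩ : U) ∈ LinearMap.ker
      ((rst X : (Fin n → F) →ₗ[F] (X → F)).domRestrict U) := by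
    rw [LinearMap.mem_ker]
    funext x
    exact h x x.2
  have h3 : Module.finrank F (LinearMap.ker
      ((rst X : (Fin n → F) →ₗ[F] (X → F)).domRestrict U)) ≠ 0 := by
    intro h4
    have h5 := Submodule.finrank_eq_zero.1 h4
    rw [h5, Submodule.mem_bot] at hk
    exact hc (congrArg Subtype.val hk)
  omega

/-- support of a vector -/
def supp {n : ℕ} [DecidableEq F] (c : Fin n → F) : Finset (Fin n) :=
  Finset.univ.filter (fun x => c x ≠ 0)

theorem girth_of_conn [DecidableEq F] {n k : ℕ} (U : Submodule F (Fin n → F)) (hn : 2 * k ≤ n)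
    (hU : TutteConn k U) (c : Fin n → F) (hc : c ∈ dual U) (hc0 : c ≠ 0) :
    k ≤ (supp c).card := by
  by_contra hlt
  push Not at hlt
  set X := supp c with hX
  have h1 := hU X.card hlt X le_rfl (by
    have := Finset.card_compl X
    rw [Fintype.card_fin] at this
    omega)
  have h2 : rk U X < X.card := by
    refine rk_lt_of_dep U X (fun x => c x) ?_ ?_
    · intro h
      apply hc0
      funext x
      by_contra hx
      exact hx (congrFun h ⟨x, Finset.mem_filter.2 ⟨Finset.mem_univ x, hx⟩⟩)
    · intro u hu
      have h3 := hc u hu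
      rw [← h3]
      have h4 : ∑ x : X, c x * u x = ∑ x ∈ X, c x * u x := by
        rw [← Finset.sum_coe_sort X (fun x => c x * u x)]
      rw [h4]
      rw [← Finset.sum_subset (Finset.subset_univ X) (f := fun i => u i * c i)]
      · exact Finset.sum_congr rfl fun x _ => mul_comm _ _
      · intro x _ hx
        have : c x = 0 := by
          by_contra h5
          exact hx (Finset.mem_filter.2 ⟨Finset.mem_univ x, h5⟩)
        rw [this, mul_zero]
  have h3 := rk_le_finrank U Xᶜ
  rw [rk_univ] at h1
  omega

theorem cogirth_of_conn [DecidableEq F] {n k : ℕ} (U : Submodule F (Fin n → F)) (hn : 2 * k ≤ n)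
    (hU : TutteConn k U) (c : Fin n → F) (hc : c ∈ U) (hc0 : c ≠ 0) :
    k ≤ (supp c).card := by
  by_contra hlt
  push Not at hlt
  set X := supp c with hX
  have h1 := hU X.card hlt X le_rfl (by
    have := Finset.card_compl X
    rw [Fintype.card_fin] at this
    omega)
  have h2 : rk U Xᶜ < Module.finrank F U := by
    refine rk_lt_of_mem U Xᶜ c hc hc0 ?_
    intro x hx
    by_contra h5
    exact (Finset.mem_compl.1 hx) (Finset.mem_filter.2 ⟨Finset.mem_univ x, h5⟩)
  have h3 := rk_le_card U X
  rw [rk_univ] at h1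
  omega

end Pool.Agent.Helper39.TC
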