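import Mathlib
import Pool.Agent.Helper39.TC.Core

/-! Highly connected represented matroids have dense minors; classes with linear growth. -/

namespace Pool.Agent.Helper39.TC

open Finset

variable {F : Type} [Field F]

/-- explicit connectivity -/
def bigK (q L : ℕ) : ℕ := 16 * (q * (L + 1)) * (4 * (q * (L + 1)) + 4) * q + 5

theorem dense_minor [Fintype F] (L : ℕ) {n : ℕ} (U : Submodule F (Fin n → F))
    (hn : 2 * bigK (Fintype.card F) L ≤ n) (hU : TutteConn (bigK (Fintype.card F) L) U) :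
    ∃ (m : ℕ) (f : Fin m ↪ Fin n) (C : Set (Fin n)), (∀ j, f j ∉ C) ∧
      ((IsSimple (minor U f C) ∧ L * rk (minor U f C) Finset.univ < m) ∨
        (IsSimple (minor (dual U) f C) ∧ L * rk (minor (dual U) f C) Finset.univ < m)) := by
  classical
  have hdim := finrank_dual U
  rcases le_total (2 * Module.finrank F U) n with h | h
  · obtain ⟨m, f, C, h1, h2, h3⟩ := girth_dense (L := L) U le_rfl hn h
      (fun c hc hc0 => girth_of_conn U hn hU c hc hc0)
    exact ⟨m, f, C, h1, Or.inl ⟨h2, h3⟩⟩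
  · obtain ⟨m, f, C, h1, h2, h3⟩ := girth_dense (L := L) (dual U) le_rfl hn (by omega)
      (fun c hc hc0 => cogirth_of_conn U hn hU c (by rwa [dual_dual] at hc) hc0)
    exact ⟨m, f, C, h1, Or.inr ⟨h2, h3⟩⟩

lemma rowSpace_zero {m n : ℕ} : rowSpace (0 : Matrix (Fin m) (Fin n) F) = ⊥ := by
  unfold rowSpace
  rw [Submodule.span_eq_bot]
  rintro _ ⟨i, rfl⟩
  rfl

lemma exists_rowSpace {n : ℕ} (U : Submodule F (Fin n → F)) :
    ∃ P : Matrix (Fin n) (Fin n) F, rowSpace P = U := by
  obtain ⟨W, hW⟩ := Submodule.exists_isCompl U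
  let π : (Fin n → F) →ₗ[F] (Fin n → F) := U.subtype ∘ₗ (Submodule.projectionOnto U W hW)
  have hr : LinearMap.range π = U := by
    rw [LinearMap.range_comp, Submodule.range_projectionOnto, Submodule.map_top,
      Submodule.range_subtype]
  refine ⟨fun i => π (Pi.single i 1), ?_⟩
  unfold rowSpace
  rw [← hr, LinearMap.range_eq_map, ← (Pi.basisFun F (Fin n)).span_eq, Submodule.map_span]
  congr 1
  ext x
  constructor
  · rintro ⟨i, rfl⟩
    exact ⟨Pi.single i 1, ⟨i, by simp⟩, rfl⟩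
  · rintro ⟨_, ⟨i, rfl⟩, rfl⟩
    exact ⟨i, by simp⟩

lemma small_structure {n t : ℕ} (U : Submodule F (Fin n → F)) (hn : n ≤ t) :
    ∃ N : Submodule F (Fin n → F), IsPerturbation t N U ∧
      (IsFrame N ∨ IsFrame (dual N) ∨ IsConfined N) := by
  obtain ⟨P, hP⟩ := exists_rowSpace U
  refine ⟨⊥, ⟨n, 0, P, rowSpace_zero, ?_, by rw [zero_add]; exact hP⟩,
    Or.inl ⟨n, 0, rowSpace_zero, ?_⟩⟩
  · exact (Matrix.rank_le_width P).trans (by simpa using hn)
  · intro j
    simp

theorem main (F : Type) [Field F] [Finite F] (L : ℕ) :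
    ∃ k : ℕ, ∀ 𝓜 : MClass F, MinorClosed 𝓜 → LinearGrowth L 𝓜 → LinearGrowth L (dualClass 𝓜) →
      (∀ (n : ℕ) (U : Submodule F (Fin n → F)), 𝓜 n U → TutteConn k U → n < 2 * k) ∧
        HasStructure 𝓜 := by
  classical
  have : Fintype F := Fintype.ofFinite F
  refine ⟨bigK (Fintype.card F) L, fun 𝓜 hclosed h1 h2 => ?_⟩
  have hb : ∀ (n : ℕ) (U : Submodule F (Fin n → F)), 𝓜 n U →
      TutteConn (bigK (Fintype.card F) L) U → n < 2 * bigK (Fintype.card F) L := by
    intro n U hU hconn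
    by_contra hn
    push Not at hn
    obtain ⟨m, f, C, hfC, h | h⟩ := dense_minor L U hn hconn
    · have := h1 m _ (hclosed n U hU m f C hfC) h.1
      omega
    · have hd : 𝓜 m (dual (minor (dual U) f C)) := by
        rw [dual_minor (dual U) f C hfC, dual_dual]
        exact hclosed n U hU m f _ (fun j hj => hj.1 ⟨j, rfl⟩)
      have := h2 m _ hd h.1
      omega
  refine ⟨hb, bigK (Fintype.card F) L, 2 * bigK (Fintype.card F) L, fun n U hU hconn => ?_⟩
  exact small_structure U (hb n U hU hconn).le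

end Pool.Agent.Helper39.TC
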