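import Mathlib
import Pool.Agent.Helper39.TC.Main
import Pool.Agent.GW.Main
import Pool.Agent.Helper37.NR

/-! Cliques as represented matroids, and the theorem of Geelen and Whittle for them. -/

namespace Pool.Agent.Helper39.TC

open Finset

variable {F : Type} [Field F]

/-- `U` is, up to a bijection of the ground set with the edges and up to scaling of columns, the
row space of the signed incidence matrix of the complete graph on `m` vertices. -/
def IsSClique (m : ℕ) {n : ℕ} (U : Submodule F (Fin n → F)) : Prop :=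
  ∃ (g : Fin n ≃ {p : Fin m × Fin m // p.1 < p.2}) (c : Fin n → F), (∀ x, c x ≠ 0) ∧
    ∀ u : Fin n → F, u ∈ U ↔ ∃ p : Fin m → F, ∀ x, u x = c x * (p (g x).1.2 - p (g x).1.1)

/-- independent functionals are jointly surjective -/
lemma exists_value {E : Type} [AddCommGroup E] [Module F E] [FiniteDimensional F E] {k : ℕ}
    (U' : Submodule F (E →ₗ[F] F)) (f : Fin k → (E →ₗ[F] F))
    (hli : LinearIndependent F (fun a => U'.mkQ (f a))) (y : Fin k → F) :
    ∃ u : E, (∀ φ ∈ U', φ u = 0) ∧ ∀ a, f a u = y a := by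
  classical
  set K : Submodule F E := Submodule.dualCoannihilator U' with hK
  have hmemK : ∀ u : E, u ∈ K ↔ ∀ φ ∈ U', φ u = 0 := by
    intro u
    rw [hK, Submodule.mem_dualCoannihilator]
  have hrange : Submodule.map (LinearMap.pi f) K = ⊤ := by
    by_contra hne
    obtain ⟨g, hg0, hg⟩ := Submodule.exists_le_ker_of_lt_top _ (lt_top_iff_ne_top.2 hne)
    have hgs : ∀ v : Fin k → F, g v = ∑ a, g (Pi.single a 1) * v a := by
      intro v
      conv_lhs => rw [pi_eq_sum_univ' v]
      rw [map_sum]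
      refine Finset.sum_congr rfl fun a _ => ?_
      rw [map_smul, smul_eq_mul, mul_comm]
    have hmem : (∑ a, g (Pi.single a 1) • f a) ∈ U' := by
      rw [← Subspace.dualCoannihilator_dualAnnihilator_eq (W := U'),
        Submodule.mem_dualAnnihilator]
      intro u hu
      have h1 : g (LinearMap.pi f u) = 0 := by
        have := hg (Submodule.mem_map_of_mem hu)
        exact this
      rw [hgs] at h1
      rw [LinearMap.sum_apply]
      rw [← h1]
      exact Finset.sum_congr rfl fun a _ => by simp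
    have h0 : ∑ a, g (Pi.single a 1) • U'.mkQ (f a) = 0 := by
      have := (Submodule.Quotient.mk_eq_zero U').2 hmem
      rw [← Submodule.mkQ_apply, map_sum] at this
      simpa using this
    have h2 := Fintype.linearIndependent_iff.1 hli _ h0
    apply hg0
    ext v
    have := h2 v
    simpa using this
  have : y ∈ Submodule.map (LinearMap.pi f) K := by rw [hrange]; trivial
  obtain ⟨u, hu, hy⟩ := this
  exact ⟨u, (hmemK u).1 hu, fun a => by rw [← hy]; rfl⟩

theorem clique_minor {n k : ℕ} (U : Submodule F (Fin n → F))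
    (h : GW.HasK F (Set.range (cf U)) k) :
    ∃ (m : ℕ) (f : Fin m ↪ Fin n) (C : Set (Fin n)), (∀ j, f j ∉ C) ∧
      IsSClique (k + 1) (minor U f C) := by
  classical
  obtain ⟨U', hFl, f, hli, h1, h2⟩ := h
  set f' : Fin (k + 1) → (U →ₗ[F] F) := Fin.cons 0 f with hf'
  have hX : ∀ p : {p : Fin (k + 1) × Fin (k + 1) // p.1 < p.2}, ∃ (e : Fin n) (c : F), c ≠ 0 ∧
      cf U e - c • (f' p.1.2 - f' p.1.1) ∈ U' := by
    rintro ⟨⟨i, j⟩, hij⟩
    simp only at hij ⊢
    obtain ⟨b, rfl⟩ := Fin.exists_succ_eq.2 (Fin.ne_zero_of_lt hij)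
    refine Fin.cases ?_ (fun a hab => ?_) i hij
    · intro _
      obtain ⟨_, ⟨e, rfl⟩, c, hc, he⟩ := h1 b
      exact ⟨e, c, hc, by simpa [hf'] using he⟩
    · have hne : b ≠ a := fun h => by simp [h] at hab
      obtain ⟨_, ⟨e, rfl⟩, c, hc, he⟩ := h2 b a hne
      exact ⟨e, c, hc, by simpa [hf'] using he⟩
  choose X c hc hXc using hX
  -- values
  have hval : ∀ p : Fin (k + 1) → F, ∃ u : U, (∀ φ ∈ U', φ u = 0) ∧
      ∀ q : {p : Fin (k + 1) × Fin (k + 1) // p.1 < p.2},
        (u : Fin n → F) (X q) = c q * (p q.1.2 - p q.1.1) := by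
    intro p
    obtain ⟨u, hu, hfu⟩ := exists_value U' f hli (fun a => p a.succ - p 0)
    refine ⟨u, hu, fun q => ?_⟩
    have hf'u : ∀ i, f' i u = p i - p 0 := by
      intro i
      refine Fin.cases ?_ (fun a => ?_) i
      · simp [hf']
      · simpa [hf'] using hfu a
    have h3 := hu _ (hXc q)
    rw [LinearMap.sub_apply, LinearMap.smul_apply, LinearMap.sub_apply, hf'u, hf'u, cf_apply,
      smul_eq_mul] at h3
    rw [sub_eq_zero.1 h3]
    ring
  have hinj : Function.Injective X := by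
    rintro ⟨⟨i, j⟩, hij⟩ ⟨⟨i', j'⟩, hij'⟩ hX
    simp only at hij hij'
    have key : ∀ p : Fin (k + 1) → F, c ⟨(i, j), hij⟩ * (p j - p i) =
        c ⟨(i', j'), hij'⟩ * (p j' - p i') := by
      intro p
      obtain ⟨u, -, hu⟩ := hval p
      have h3 := hu ⟨(i, j), hij⟩
      have h4 := hu ⟨(i', j'), hij'⟩
      rw [hX] at h3
      rw [← h3, h4]
    have kj := key (Pi.single j 1)
    have ki := key (Pi.single i 1)
    have hne : i ≠ j := hij.ne
    have hne' : i' ≠ j' := hij'.ne
    rw [Pi.single_eq_same, Pi.single_eq_of_ne hne, sub_zero, mul_one] at kj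
    rw [Pi.single_eq_same, Pi.single_eq_of_ne hne.symm, zero_sub, mul_neg, mul_one] at ki
    have hc1 := hc ⟨(i, j), hij⟩
    have e1 : j' = j ∨ i' = j := by
      by_contra hcon
      push Not at hcon
      rw [Pi.single_eq_of_ne hcon.1, Pi.single_eq_of_ne hcon.2, sub_zero, mul_zero] at kj
      exact hc1 kj
    have e2 : j' = i ∨ i' = i := by
      by_contra hcon
      push Not at hcon
      rw [Pi.single_eq_of_ne hcon.1, Pi.single_eq_of_ne hcon.2, sub_zero, mul_zero] at ki
      exact hc1 (neg_eq_zero.1 ki)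
    rcases e1 with e1 | e1 <;> rcases e2 with e2 | e2
    · exact absurd (e2.symm.trans e1) hne
    · subst e1 e2; rfl
    · subst e1 e2; exact absurd hij hij'.le.not_gt
    · exact absurd (e2.symm.trans e1) hne
  have hnot : ∀ q, cf U (X q) ∉ U' := by
    rintro ⟨⟨i, j⟩, hij⟩ hmem
    simp only at hij
    obtain ⟨u, hu0, hu⟩ := hval (Pi.single j 1)
    have h3 := hu ⟨(i, j), hij⟩
    have h4 := hu0 _ hmem
    rw [cf_apply] at h4
    rw [h4] at h3
    simp only [Pi.single_eq_same, Pi.single_eq_of_ne hij.ne, sub_zero, mul_one] at h3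
    exact hc _ h3.symm
  let g : Fin (Fintype.card {p : Fin (k + 1) × Fin (k + 1) // p.1 < p.2}) ≃
    {p : Fin (k + 1) × Fin (k + 1) // p.1 < p.2} := (Fintype.equivFin _).symm
  refine ⟨_, ⟨fun j => X (g j), hinj.comp g.injective⟩, {e | cf U e ∈ U'}, fun j => hnot _, g,
    fun x => c (g x), fun x => hc _, fun w => ?_⟩
  rw [mem_minor]
  constructor
  · rintro ⟨u, hu, huC, hw⟩
    have hann : ∀ φ ∈ U', φ ⟨u, hu⟩ = 0 := by
      intro φ hφ
      have h3 : φ ∈ Submodule.span F (Set.range (cf U) ∩ U') := hFl hφ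
      refine Submodule.span_induction ?_ ?_ ?_ ?_ h3
      · rintro _ ⟨⟨e, rfl⟩, he⟩
        exact huC e he
      · rfl
      · intro a b _ _ ha hb
        rw [LinearMap.add_apply, ha, hb, add_zero]
      · intro r a _ ha
        rw [LinearMap.smul_apply, ha, smul_zero]
    refine ⟨fun i => f' i ⟨u, hu⟩, fun x => ?_⟩
    rw [hw x]
    have h3 := hann _ (hXc (g x))
    rw [LinearMap.sub_apply, LinearMap.smul_apply, LinearMap.sub_apply, cf_apply,
      smul_eq_mul] at h3
    exact sub_eq_zero.1 h3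
  · rintro ⟨p, hp⟩
    obtain ⟨u, hu0, hu⟩ := hval p
    exact ⟨u, u.2, fun e he => hu0 _ he, fun x => by rw [hp x, ← hu (g x)]; rfl⟩

/-- the elements of a simple matroid are different points -/
theorem cf_simple {n : ℕ} (U : Submodule F (Fin n → F)) (hs : IsSimple U) :
    (∀ e, cf U e ≠ 0) ∧ ∀ e e', cf U e ∈ Submodule.span F {cf U e'} → e = e' := by
  classical
  constructor
  · intro e h0
    have h1 := rk_lt_of_dep U {e} (fun _ => 1) (fun h => by
      have := congrFun h ⟨e, Finset.mem_singleton_self e⟩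
      simp at this) (fun u hu => by
      have : u e = 0 := by
        have := congrArg (fun φ => φ ⟨u, hu⟩) h0
        simpa [cf_apply] using this
      refine Finset.sum_eq_zero fun x _ => ?_
      have hx : (x : Fin n) = e := Finset.mem_singleton.1 x.2
      rw [hx, this, mul_zero])
    have h2 := hs {e} (by simp)
    omega
  · intro e e' h
    by_contra hne
    obtain ⟨a, ha⟩ := Submodule.mem_span_singleton.1 h
    have h2 := hs {e, e'} Finset.card_le_two
    have h1 := rk_lt_of_dep U {e, e'} (fun x => if (x : Fin n) = e then 1 else - a) (fun h => by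
      have := congrFun h ⟨e, by simp⟩
      simp at this) (fun u hu => by
      have h3 : a * u e' = u e := by
        have := congrArg (fun φ => φ ⟨u, hu⟩) ha
        simpa [cf_apply] using this
      rw [Finset.sum_coe_sort ({e, e'} : Finset (Fin n))
        (fun x => (if x = e then 1 else - a) * u x), Finset.sum_pair hne]
      rw [if_pos rfl, if_neg (Ne.symm hne), ← h3]
      ring)
    omega

/-- with at most one vertex, a clique is the empty matroid -/
lemma isSClique_empty {m n : ℕ} (hm : m ≤ 1) (U : Submodule F (Fin n → F)) :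
    IsSClique m (minor U (⟨Fin.elim0, fun a => a.elim0⟩ : Fin 0 ↪ Fin n) ∅) := by
  have h1 : IsEmpty {p : Fin m × Fin m // p.1 < p.2} := by
    refine ⟨fun p => ?_⟩
    have h := p.2
    rw [Fin.lt_def] at h
    have := p.1.2.2
    omega
  refine ⟨Equiv.equivOfIsEmpty _ _, fun _ => 1, fun _ => one_ne_zero, fun u => ?_⟩
  constructor
  · intro _
    exact ⟨0, fun x => x.elim0⟩
  · intro _
    have : u = 0 := Subsingleton.elim _ _
    rw [this]
    exact Submodule.zero_mem _

/-- The Geelen-Whittle theorem for classes of represented matroids. -/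
theorem gw (F : Type) [Field F] [Finite F] (m : ℕ) : ∃ L : ℕ, ∀ 𝓜 : MClass F, MinorClosed 𝓜 →
    (∀ (n : ℕ) (U : Submodule F (Fin n → F)), 𝓜 n U → ¬ IsSClique m U) → LinearGrowth L 𝓜 := by
  classical
  rcases le_or_gt m 1 with hm | hm
  · refine ⟨0, fun 𝓜 hclosed hno n U hU _ => ?_⟩
    exact absurd (isSClique_empty hm U) (hno _ _ (hclosed n U hU 0 _ ∅ (fun j => j.elim0)))
  obtain ⟨k, rfl⟩ := Nat.exists_eq_add_of_le' hm
  obtain ⟨c, hc⟩ := GW.geelen_whittle' F k
  refine ⟨c, fun 𝓜 hclosed hno n U hU hs => ?_⟩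
  obtain ⟨h0, hpar⟩ := cf_simple U hs
  have hinj : Function.Injective (cf U) := by
    intro e e' h
    exact hpar e e' (by rw [h]; exact Submodule.mem_span_singleton_self _)
  have h1 := hc (U →ₗ[F] F) (Finset.univ.image (cf U)) (by simpa using h0)
    (by
      intro p hp p' hp' h
      obtain ⟨e, -, rfl⟩ := Finset.mem_image.1 hp
      obtain ⟨e', -, rfl⟩ := Finset.mem_image.1 hp'
      rw [hpar e e' h])
    (by
      intro h
      rw [Finset.coe_image, Finset.coe_univ, Set.image_univ] at h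
      obtain ⟨m', f, C, hfC, hcl⟩ := clique_minor U h
      exact hno _ _ (hclosed n U hU m' f C hfC) hcl)
  rw [Finset.card_image_of_injective _ hinj, Finset.card_univ, Fintype.card_fin] at h1
  refine h1.trans (Nat.mul_le_mul_left c ?_)
  rw [rk_univ]
  calc Module.finrank F (Submodule.span F ((Finset.univ.image (cf U) : Finset _) : Set (U →ₗ[F] F)))
      ≤ Module.finrank F (U →ₗ[F] F) := Submodule.finrank_le _
    _ = Module.finrank F U := Subspace.dual_finrank_eq

/-- monotone version of Ramsey's theorem for pairs -/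
lemma ramsey_mono (K : Type) [Finite K] (v : ℕ) : ∃ N : ℕ, ∀ c : Fin N → Fin N → K,
    ∃ (e : Fin v ↪o Fin N) (c0 : Option K), ∀ x y, x < y → some (c (e x) (e y)) = c0 := by
  classical
  have : Fintype K := Fintype.ofFinite K
  obtain ⟨N, hN⟩ := Pool.Agent.Helper37.NR.ramsey_pairs (Fintype.card K) v
  refine ⟨N, fun c => ?_⟩
  obtain ⟨e, c0, he, hc⟩ := hN (fun a b => Fintype.equivFin K (c (min a b) (max a b)))
  have hcard : (Finset.univ.image e).card = v := by
    rw [Finset.card_image_of_injective _ he, Finset.card_univ, Fintype.card_fin]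
  refine ⟨(Finset.univ.image e).orderEmbOfFin hcard, some ((Fintype.equivFin K).symm c0), ?_⟩
  intro x y hxy
  have hlt : (Finset.univ.image e).orderEmbOfFin hcard x <
    (Finset.univ.image e).orderEmbOfFin hcard y := by simpa using hxy
  obtain ⟨a, -, ha⟩ := Finset.mem_image.1 (Finset.orderEmbOfFin_mem _ hcard x)
  obtain ⟨b, -, hb⟩ := Finset.mem_image.1 (Finset.orderEmbOfFin_mem _ hcard y)
  rw [← ha, ← hb] at hlt ⊢
  congr 1
  rw [Equiv.eq_symm_apply]
  have hab : a ≠ b := fun h => by rw [h] at hlt; exact lt_irrefl _ hlt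
  rcases lt_or_gt_of_ne hab with h | h
  · have := hc a b h
    rwa [min_eq_left hlt.le, max_eq_right hlt.le] at this
  · have := hc b a h
    rwa [min_eq_right hlt.le, max_eq_left hlt.le] at this

/-- a large scaled clique has an unscaled clique as a restriction -/
lemma unscale (F : Type) [Field F] [Finite F] (m : ℕ) : ∃ N : ℕ, ∀ (n : ℕ)
    (V : Submodule F (Fin n → F)), IsSClique N V →
    ∃ (m' : ℕ) (f : Fin m' ↪ Fin n), IsClique m (minor V f ∅) := by
  classical
  obtain ⟨N, hN⟩ := ramsey_mono F m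
  refine ⟨N, fun n V h => ?_⟩
  obtain ⟨g, c, hc, hV⟩ := h
  obtain ⟨e, c0, he⟩ := hN (fun a b => if hab : a < b then c (g.symm ⟨(a, b), hab⟩) else 0)
  obtain ⟨d, hd0, hd⟩ : ∃ d : F, d ≠ 0 ∧ ∀ (x y : Fin m) (hxy : x < y),
      c (g.symm ⟨(e x, e y), e.lt_iff_lt.2 hxy⟩) = d := by
    by_cases hex : ∃ x y : Fin m, x < y
    · obtain ⟨x, y, hxy⟩ := hex
      refine ⟨c (g.symm ⟨(e x, e y), e.lt_iff_lt.2 hxy⟩), hc _, fun x' y' hxy' => ?_⟩
      have h1 := he x y hxy
      have h2 := he x' y' hxy'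
      rw [← h1] at h2
      have h3 := Option.some.inj h2
      rwa [dif_pos (e.lt_iff_lt.2 hxy), dif_pos (e.lt_iff_lt.2 hxy')] at h3
    · exact ⟨1, one_ne_zero, fun x y hxy => absurd ⟨x, y, hxy⟩ hex⟩
  let g' : Fin (Fintype.card {p : Fin m × Fin m // p.1 < p.2}) ≃
    {p : Fin m × Fin m // p.1 < p.2} := (Fintype.equivFin _).symm
  let ι : {p : Fin m × Fin m // p.1 < p.2} → {p : Fin N × Fin N // p.1 < p.2} :=
    fun q => ⟨(e q.1.1, e q.1.2), e.lt_iff_lt.2 q.2⟩
  have hι : Function.Injective ι := by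
    intro a b hab
    have h1 := congrArg Subtype.val hab
    simp only [ι, Prod.mk.injEq, EmbeddingLike.apply_eq_iff_eq] at h1
    exact Subtype.ext (Prod.ext h1.1 h1.2)
  refine ⟨_, ⟨fun j => g.symm (ι (g' j)), g.symm.injective.comp (hι.comp g'.injective)⟩, g',
    fun w => ?_⟩
  rw [mem_minor]
  have hcd : ∀ j, c (g.symm (ι (g' j))) = d := fun j => hd _ _ (g' j).2
  constructor
  · rintro ⟨u, hu, -, hw⟩
    obtain ⟨p, hp⟩ := (hV u).1 hu
    refine ⟨fun i => d * p (e i), fun x => ?_⟩
    rw [hw x]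
    change u (g.symm (ι (g' x))) = _
    rw [hp, hcd, Equiv.apply_symm_apply]
    simp only [ι]
    ring
  · rintro ⟨p, hp⟩
    let p' : Fin N → F := Function.extend e (fun i => d⁻¹ * p i) 0
    have hp' : ∀ i, p' (e i) = d⁻¹ * p i := fun i => e.injective.extend_apply _ _ _
    refine ⟨fun x => c x * (p' (g x).1.2 - p' (g x).1.1), (hV _).2 ⟨p', fun x => rfl⟩, by simp,
      fun x => ?_⟩
    rw [hp x]
    change _ = c (g.symm (ι (g' x))) * (p' (g (g.symm (ι (g' x)))).1.2 -
      p' (g (g.symm (ι (g' x)))).1.1)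
    rw [hcd, Equiv.apply_symm_apply]
    simp only [ι, hp']
    rw [← mul_sub, mul_inv_cancel_left₀ hd0]

/-- The structure theorem for classes with neither all graphic nor all cographic matroids. -/
theorem final (F : Type) [Field F] [Finite F] (m : ℕ) :
    ∃ k : ℕ, ∀ 𝓜 : MClass F, MinorClosed 𝓜 →
      (∀ (n : ℕ) (U : Submodule F (Fin n → F)), 𝓜 n U → ¬ IsClique m U) →
      (∀ (n : ℕ) (U : Submodule F (Fin n → F)), 𝓜 n U → ¬ IsClique m (dual U)) →
      (∀ (n : ℕ) (U : Submodule F (Fin n → F)), 𝓜 n U → TutteConn k U → n < 2 * k) ∧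
        HasStructure 𝓜 := by
  obtain ⟨N, hN⟩ := unscale F m
  obtain ⟨L, hL⟩ := gw F N
  obtain ⟨k, hk⟩ := main F L
  refine ⟨k, fun 𝓜 hclosed h1 h2 => ?_⟩
  have hdc : MinorClosed (dualClass 𝓜) := by
    intro n U hU m' f C hfC
    change 𝓜 _ (dual (minor U f C))
    rw [dual_minor U f C hfC]
    exact hclosed n _ hU m' f _ (fun j hj => hj.1 ⟨j, rfl⟩)
  refine hk 𝓜 hclosed (hL 𝓜 hclosed ?_) (hL _ hdc ?_)
  · intro n U hU hcl
    obtain ⟨m', f, hf⟩ := hN n U hcl
    exact h1 _ _ (hclosed n U hU m' f ∅ (fun j => by simp)) hf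
  · intro n U hU hcl
    obtain ⟨m', f, hf⟩ := hN n U hcl
    have h3 : 𝓜 _ (dual (minor U f ∅)) := hdc n U hU m' f ∅ (fun j => by simp)
    refine h2 _ _ h3 ?_
    rwa [dual_dual]

end Pool.Agent.Helper39.TC
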