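import Mathlib
import Pool.Agent.Helper39.TC.Code

/-! Codes with linearly many traces: size times minimum distance is at most linear in the length. -/

namespace Pool.Agent.Helper39.TC

open Finset

variable {κ : Type*} [Fintype κ] [DecidableEq κ] {F : Type*} [Fintype F] [DecidableEq F] [Zero F]

lemma res_univ (u : κ → F) : res (univ : Finset κ) u = u := by
  funext i; simp [res]

theorem code_bound_gen (C : Finset (κ → F)) (K δ : ℕ) (hK : 1 ≤ K) (hδ : 1 ≤ δ)
    (hres : ∀ T : Finset κ, (C.image (res T)).card ≤ K * T.card + 1)
    (hdist : ∀ u ∈ C, ∀ v ∈ C, u ≠ v → δ ≤ (univ.filter (fun i => u i ≠ v i)).card) :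
    C.card * δ ≤ 8 * K * (4 * K + 4) * Fintype.card F * Fintype.card κ + 2 * δ
      + 4 * (4 * K + 4) * (K * Fintype.card κ + 1) := by
  set q := Fintype.card F with hq
  set r := Fintype.card κ with hr
  set d := 4 * K + 4 with hd
  set N := Fintype.card (κ × F) with hN
  have hNr : N = r * q := by rw [hN, Fintype.card_prod]
  set t := 4 * d * N / δ with ht
  have htδ : t * δ ≤ 4 * d * N := Nat.div_mul_le_self _ _
  have htδ2 : 4 * d * N ≤ (t + 1) * δ := by
    rw [ht]
    have h2 := Nat.lt_mul_div_succ (4 * d * N) hδ
    rw [mul_comm (4 * d * N / δ + 1) δ]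
    exact h2.le
  have htriv : C.card ≤ K * r + 1 := by
    have h := hres univ
    have h2 : C.image (res (univ : Finset κ)) = C := by
      ext u
      simp [res_univ]
    rw [h2, Finset.card_univ] at h
    exact h
  rcases le_or_gt (t + 1) N with htN | htN
  · have hVC : ∀ s, (C.image gr).Shatters s → s.card ≤ d := by
      intro s hs
      refine two_pow_bound K s.card ?_
      have h1 : (tr (C.image gr) s).card = 2 ^ s.card := by
        rw [← Finset.card_powerset, ← Finset.shatters_iff.1 hs]
        unfold tr
        congr 1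
        refine Finset.image_congr fun S _ => ?_
        exact Finset.inter_comm _ _
      rw [← h1]
      calc _ ≤ _ := card_tr_le C s
        _ ≤ K * (s.image Prod.fst).card + 1 := hres _
        _ ≤ _ := by
          have : (s.image Prod.fst).card ≤ s.card := Finset.card_image_le
          gcongr
    have main := packing (C.image gr) d t δ (K * t + 1) htN hVC ?_ ?_ htδ2 hδ
    · rw [Finset.card_image_of_injective _ gr_injective] at main
      have h1 : C.card * δ ≤ 2 * (K * t + 1) * δ := Nat.mul_le_mul_right _ main
      have h2 : 2 * (K * t + 1) * δ = 2 * K * (t * δ) + 2 * δ := by ring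
      have h3 : 2 * K * (t * δ) ≤ 2 * K * (4 * d * N) := Nat.mul_le_mul_left _ htδ
      have h4 : 2 * K * (4 * d * N) = 8 * K * d * q * r := by rw [hNr]; ring
      omega
    · intro S hS T hT hST
      obtain ⟨u, hu, rfl⟩ := Finset.mem_image.1 hS
      obtain ⟨v, hv, rfl⟩ := Finset.mem_image.1 hT
      exact (hdist u hu v hv (fun h => hST (by rw [h]))).trans (dist_le u v)
    · intro A hA
      calc _ ≤ _ := card_tr_le C A
        _ ≤ K * (A.image Prod.fst).card + 1 := hres _
        _ ≤ _ := by
          have : (A.image Prod.fst).card ≤ t := hA ▸ Finset.card_image_le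
          gcongr
  · rcases Nat.eq_zero_or_pos N with h0 | h0
    · have hκ : r = 0 ∨ q = 0 := by
        rw [hNr] at h0
        exact Nat.mul_eq_zero.1 h0
      rcases hκ with h1 | h1
      · have h2 : C.card ≤ 1 := by rw [h1] at htriv; simpa using htriv
        have h3 : C.card * δ ≤ 1 * δ := Nat.mul_le_mul_right _ h2
        omega
      · have : IsEmpty F := Fintype.card_eq_zero_iff.1 h1
        exact (this.false 0).elim
    · have h1 : N * δ ≤ (4 * d) * N := by
        calc N * δ ≤ t * δ := Nat.mul_le_mul_right _ (by omega)
          _ ≤ _ := htδ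
      have h2 : δ ≤ 4 * d := by
        rw [mul_comm] at h1
        exact Nat.le_of_mul_le_mul_right h1 h0
      have h3 : C.card * δ ≤ (K * r + 1) * (4 * d) := Nat.mul_le_mul htriv h2
      have h4 : (K * r + 1) * (4 * d) = 4 * d * (K * r + 1) := by ring
      omega

end Pool.Agent.Helper39.TC
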