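import Mathlib
import Pool.Agent.Helper39.TC.CodeB
import Pool.Agent.Helper39.TC.Core

/-! Large girth and few elements in simple minors force small corank. -/

namespace Pool.Agent.Helper39.TC

open Finset

variable {F : Type} [Field F] [Fintype F] [DecidableEq F]

theorem girth_dense_gen {n k L : ℕ} (V : Submodule F (Fin n → F)) (hk : 3 ≤ k)
    (hcon : ∀ (m : ℕ) (f : Fin m ↪ Fin n) (C : Set (Fin n)), (∀ j, f j ∉ C) →
      IsSimple (minor V f C) → m ≤ L * rk (minor V f C) Finset.univ)
    (hg : ∀ c ∈ dual V, c ≠ 0 → k ≤ (supp c).card) :
    (n - Module.finrank F V) * (k - 2) ≤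
      8 * (Fintype.card F * (L + 1)) * (4 * (Fintype.card F * (L + 1)) + 4) * Fintype.card F *
        Module.finrank F V + 2 * (k - 2) +
      4 * (4 * (Fintype.card F * (L + 1)) + 4) *
        (Fintype.card F * (L + 1) * Module.finrank F V + 1) := by
  classical
  obtain ⟨κ, _, _, a, u, ha, hcard, huV, hua, hw⟩ := exists_coords V
  set q := Fintype.card F with hq
  have hq2 : 2 ≤ q := Fintype.one_lt_card
  set K := q * (L + 1) with hK
  have hK1 : 1 ≤ K := by
    have : 0 < q * (L + 1) := by positivity
    omega
  set cw : Fin n → κ → F := fun e i => u i e with hcw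
  set E : Finset (Fin n) := Finset.univ.filter (fun e => e ∉ Set.range a) with hE
  have hcE : E.card = n - Fintype.card κ := by
    have h1 : E = Finset.univ \ (Finset.univ.image a) := by
      ext e
      simp [hE]
    rw [h1, Finset.card_sdiff_of_subset (Finset.subset_univ _),
      Finset.card_image_of_injective _ ha]
    simp
  -- distances
  have hdist : ∀ e ∈ E, ∀ f ∈ E, e ≠ f →
      k ≤ (Finset.univ.filter (fun i => cw e i ≠ cw f i)).card + 2 := by
    intro e he f hf hef
    have he' : ∀ i, a i ≠ e := fun i h => (Finset.mem_filter.1 he).2 ⟨i, h⟩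
    have hf' : ∀ i, a i ≠ f := fun i h => (Finset.mem_filter.1 hf).2 ⟨i, h⟩
    let c : Fin n → F := fun x => (if x = e then 1 else 0) - (if x = f then 1 else 0)
      - ∑ i, if x = a i then (cw e i - cw f i) else 0
    have hce : c e = 1 := by
      show (if e = e then (1 : F) else 0) - (if e = f then 1 else 0)
        - (∑ i, if e = a i then (cw e i - cw f i) else 0) = 1
      rw [if_pos rfl, if_neg hef, Finset.sum_eq_zero]
      · ring
      · intro i _; rw [if_neg (fun h => he' i h.symm)]
    have hc0 : c ≠ 0 := fun h => by
      rw [h] at hce; exact zero_ne_one hce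
    have hcd : c ∈ dual V := by
      intro w hwV
      have h1 : ∑ x, w x * c x = w e - w f - ∑ i, w (a i) * (cw e i - cw f i) := by
        simp only [c, mul_sub, Finset.sum_sub_distrib, Finset.mul_sum]
        congr 1
        · congr 1
          · simp
          · simp
        · rw [Finset.sum_comm]
          simp [mul_sub, Finset.sum_sub_distrib]
      rw [h1, hw w hwV e, hw w hwV f, ← Finset.sum_sub_distrib, ← Finset.sum_sub_distrib]
      refine Finset.sum_eq_zero fun i _ => ?_
      simp only [cw]
      ring
    have h2 := hg c hcd hc0
    have h3 : supp c ⊆ insert e (insert f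
        ((Finset.univ.filter (fun i => cw e i ≠ cw f i)).image a)) := by
      intro x hx
      have hx' : c x ≠ 0 := (Finset.mem_filter.1 hx).2
      simp only [Finset.mem_insert, Finset.mem_image, Finset.mem_filter, Finset.mem_univ, true_and]
      by_contra hno
      push Not at hno
      obtain ⟨h4, h5, h6⟩ := hno
      apply hx'
      simp only [c]
      rw [if_neg h4, if_neg h5, Finset.sum_eq_zero]
      · ring
      · intro i _
        split_ifs with h7
        · by_contra h8
          exact h6 i (fun h9 => h8 (by rw [h9]; ring)) h7.symm
        · rfl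
    have h4 := Finset.card_le_card h3
    have h5 := Finset.card_insert_le e (insert f
        ((Finset.univ.filter (fun i => cw e i ≠ cw f i)).image a))
    have h6 := Finset.card_insert_le f
        ((Finset.univ.filter (fun i => cw e i ≠ cw f i)).image a)
    have h7 : ((Finset.univ.filter (fun i => cw e i ≠ cw f i)).image a).card
        ≤ (Finset.univ.filter (fun i => cw e i ≠ cw f i)).card := Finset.card_image_le
    omega
  have hinj : Set.InjOn cw E := by
    intro e he f hf h
    by_contra hef
    have := hdist e he f hf hef
    rw [h] at this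
    simp at this
    omega
  -- traces
  have htrace : ∀ T : Finset κ, ((E.image cw).image (res T)).card ≤ K * T.card + 1 := by
    intro T
    set W := (E.image cw).image (res T) with hW
    set W' := W.erase 0 with hW'
    let ψ : (κ → F) → Submodule F (κ → F) := fun w => Submodule.span F {w}
    set P := W'.image ψ with hP
    have hfib : W'.card ≤ q * P.card := by
      refine Finset.card_le_mul_card_image W' q ?_
      intro p hp
      obtain ⟨w, hw1, rfl⟩ := Finset.mem_image.1 hp
      -- fiber inside the image of F under c ↦ c • w
      have hsub : (W'.filter (fun x => ψ x = ψ w)) ⊆ Finset.univ.image (fun c : F => c • w) := by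
        intro x hx
        have hx' := (Finset.mem_filter.1 hx).2
        have h1 : x ∈ ψ w := by
          rw [← hx']; exact Submodule.mem_span_singleton_self x
        obtain ⟨c, hc⟩ := Submodule.mem_span_singleton.1 h1
        exact Finset.mem_image.2 ⟨c, Finset.mem_univ _, hc⟩
      calc _ ≤ _ := Finset.card_le_card hsub
        _ ≤ _ := Finset.card_image_le
        _ = q := Finset.card_univ
    -- choose representatives
    have hrep : ∀ p : P, ∃ e ∈ E, res T (cw e) ≠ 0 ∧ ψ (res T (cw e)) = p := by
      rintro ⟨p, hp⟩
      obtain ⟨w, hw1, rfl⟩ := Finset.mem_image.1 hp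
      obtain ⟨hw2, hw3⟩ := Finset.mem_erase.1 hw1
      obtain ⟨v, hv, rfl⟩ := Finset.mem_image.1 hw3
      obtain ⟨e, he, rfl⟩ := Finset.mem_image.1 hv
      exact ⟨e, he, hw2, rfl⟩
    choose rep hrepE hrep0 hrepψ using hrep
    set m := P.card with hm
    let eqv : P ≃ Fin m := P.equivFin
    have hfinj : Function.Injective (fun j : Fin m => rep (eqv.symm j)) := by
      intro i j h
      have h1 := hrepψ (eqv.symm i)
      have h2 := hrepψ (eqv.symm j)
      have h3 : rep (eqv.symm i) = rep (eqv.symm j) := h
      rw [h3, h2] at h1
      exact eqv.symm.injective (Subtype.ext h1.symm)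
    let f : Fin m ↪ Fin n := ⟨fun j => rep (eqv.symm j), hfinj⟩
    have hf : ∀ j, f j = rep (eqv.symm j) := fun _ => rfl
    let C : Set (Fin n) := {x | ∃ i, i ∉ T ∧ x = a i}
    have hfC : ∀ j, f j ∉ C := by
      rintro j ⟨i, _, h⟩
      exact (Finset.mem_filter.1 (hrepE (eqv.symm j))).2 ⟨i, h.symm⟩
    -- members of the minor
    have huN : ∀ i ∈ T, (fun j => u i (f j)) ∈ minor V f C := by
      intro i hi
      refine ⟨u i, huV i, ?_, fun _ => rfl⟩
      rintro _ ⟨j, hj, rfl⟩
      rw [hua, if_neg (fun h : i = j => hj (h ▸ hi))]
    -- simple
    have hsimple : IsSimple (minor V f C) := by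
      intro X hX
      refine rk_eq_card _ X ?_
      intro c hc
      -- vector relation
      have hrel : ∑ x : X, c x • res T (cw (f x)) = 0 := by
        funext i
        rw [Finset.sum_apply, Pi.zero_apply]
        by_cases hi : i ∈ T
        · have h1 := hc _ (huN i hi)
          rw [← h1]
          refine Finset.sum_congr rfl fun x _ => ?_
          simp [res, hi, cw]
        · refine Finset.sum_eq_zero fun x _ => ?_
          simp [res, hi]
      have hne : ∀ j : Fin m, res T (cw (f j)) ≠ 0 := fun j => hrep0 _
      have hψ : ∀ i j : Fin m, ψ (res T (cw (f i))) = ψ (res T (cw (f j))) → i = j := by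
        intro i j h
        rw [hf, hf, hrepψ, hrepψ] at h
        exact eqv.symm.injective (Subtype.ext h)
      have key : ∀ x y : X, x ≠ y → c x • res T (cw (f x)) + c y • res T (cw (f y)) = 0 →
          c x = 0 := by
        intro x y hxy h
        by_contra hcx
        have hxy' : (x : Fin m) ≠ y := fun h => hxy (Subtype.ext h)
        apply hxy'
        apply hψ
        have h1 : res T (cw (f x)) = (-(c x)⁻¹ * c y) • res T (cw (f y)) := by
          have h2 : c x • res T (cw (f x)) = -(c y • res T (cw (f y))) := eq_neg_of_add_eq_zero_left h
          calc res T (cw (f x)) = (c x)⁻¹ • (c x • res T (cw (f x))) := by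
                rw [smul_smul, inv_mul_cancel₀ hcx, one_smul]
            _ = _ := by rw [h2, smul_neg, smul_smul, neg_mul, neg_smul]
        have hne' : (-(c x)⁻¹ * c y) ≠ 0 := by
          intro h3
          rw [h3, zero_smul] at h1
          exact hne x h1
        simp only [ψ]
        rw [h1]
        exact Submodule.span_singleton_smul_eq (IsUnit.mk0 _ hne') _
      have hXc : Fintype.card X ≤ 2 := by rw [Fintype.card_coe]; exact hX
      funext x
      by_cases hex : ∃ y : X, y ≠ x
      · obtain ⟨y, hy⟩ := hex
        refine key x y (Ne.symm hy) ?_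
        have huniv : (Finset.univ : Finset X) = {x, y} := by
          symm
          rw [← Finset.card_eq_iff_eq_univ, Finset.card_pair (Ne.symm hy)]
          have : 2 ≤ Fintype.card X := by
            rw [← Finset.card_pair (Ne.symm hy)]
            exact Finset.card_le_univ _
          omega
        rw [huniv, Finset.sum_pair (Ne.symm hy)] at hrel
        exact hrel
      · push Not at hex
        have huniv : (Finset.univ : Finset X) = {x} := by
          ext y; simp [hex y]
        rw [huniv, Finset.sum_singleton] at hrel
        rcases smul_eq_zero.1 hrel with h | h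
        · exact h
        · exact absurd h (hne x)
    -- rank
    have hrank : rk (minor V f C) Finset.univ ≤ T.card := by
      rw [rk_univ]
      have hsub : minor V f C ≤ Submodule.span F
          ((T.image (fun i => (fun j => u i (f j) : Fin m → F)) : Finset (Fin m → F)) :
            Set (Fin m → F)) := by
        rintro w ⟨v, hv, h1, h2⟩
        have h3 : w = ∑ i ∈ T, v (a i) • (fun j => u i (f j) : Fin m → F) := by
          funext j
          rw [h2 j, hw v hv (f j), Finset.sum_apply]
          symm
          refine (Finset.sum_subset (Finset.subset_univ T) ?_).trans ?_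
          · intro i _ hi
            simp only [Pi.smul_apply, smul_eq_mul]
            rw [h1 (a i) ⟨i, hi, rfl⟩, zero_mul]
          · refine Finset.sum_congr rfl fun i _ => ?_
            simp only [Pi.smul_apply, smul_eq_mul]
            ring
        rw [h3]
        refine Submodule.sum_mem _ fun i hi => Submodule.smul_mem _ _ (Submodule.subset_span ?_)
        exact Finset.mem_coe.2 (Finset.mem_image_of_mem _ hi)
      calc _ ≤ _ := Submodule.finrank_mono hsub
        _ ≤ _ := finrank_span_finset_le_card _
        _ ≤ _ := Finset.card_image_le
    have hmL := hcon m f C hfC hsimple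
    have hm2 : m ≤ L * T.card := hmL.trans (Nat.mul_le_mul_left _ hrank)
    have hWW : W.card ≤ W'.card + 1 := by
      rw [hW']
      have := Finset.pred_card_le_card_erase (s := W) (a := (0 : κ → F))
      omega
    calc W.card ≤ W'.card + 1 := hWW
      _ ≤ q * m + 1 := Nat.add_le_add_right hfib 1
      _ ≤ q * (L * T.card) + 1 := by gcongr
      _ ≤ K * T.card + 1 := by
        rw [hK]
        have : q * (L * T.card) ≤ q * (L + 1) * T.card := by
          calc q * (L * T.card) = q * L * T.card := by ring
            _ ≤ q * (L + 1) * T.card := by gcongr; omega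
        omega
  have hbound := code_bound_gen (E.image cw) K (k - 2) hK1 (by omega) htrace ?_
  · rw [Finset.card_image_of_injOn hinj, hcE, hcard] at hbound
    exact hbound
  · intro x hx y hy hxy
    obtain ⟨e, he, rfl⟩ := Finset.mem_image.1 hx
    obtain ⟨f, hf, rfl⟩ := Finset.mem_image.1 hy
    have := hdist e he f hf (fun h => hxy (by rw [h]))
    omega

end Pool.Agent.Helper39.TC
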