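import Mathlib
import Pool.Agent.Helper39.TC.DenseB
import Pool.Agent.Helper39.TC.Clique

/-! Sparse representations of represented matroids without large cographic cliques. -/

namespace Pool.Agent.Helper39.TC

open Finset

variable {F : Type} [Field F]

/-- constant of the bound -/
def cLight (q L : ℕ) : ℕ :=
  3 * (8 * (q * (L + 1)) * (4 * (q * (L + 1)) + 4) * q + 2 +
    4 * (4 * (q * (L + 1)) + 4) * (q * (L + 1) + 1))

/-- Simple minors of `W` have at most `L` times as many elements as their rank. -/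
def LinMin (L : ℕ) {n : ℕ} (W : Submodule F (Fin n → F)) : Prop :=
  ∀ (m : ℕ) (f : Fin m ↪ Fin n) (C : Set (Fin n)), (∀ j, f j ∉ C) →
      IsSimple (minor W f C) → m ≤ L * rk (minor W f C) Finset.univ

theorem light [Fintype F] [DecidableEq F] {n L : ℕ} (U : Submodule F (Fin n → F))
    (hL : LinMin L (dual U)) (hr : 1 ≤ Module.finrank F U) :
    ∃ c ∈ U, c ≠ 0 ∧ Module.finrank F U * (supp c).card ≤ cLight (Fintype.card F) L * n := by
  classical
  have hne : ∃ c ∈ U, c ≠ 0 := by
    have : U ≠ ⊥ := by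
      intro h
      rw [h, finrank_bot] at hr
      omega
    obtain ⟨c, hc, hc0⟩ := Submodule.exists_mem_ne_zero_of_ne_bot this
    exact ⟨c, hc, hc0⟩
  obtain ⟨c, ⟨hc, hc0⟩, hmin⟩ : ∃ c, (c ∈ U ∧ c ≠ 0) ∧ ∀ c', (c' ∈ U ∧ c' ≠ 0) →
      (supp c).card ≤ (supp c').card := by
    obtain ⟨c, hc, hc0⟩ := hne
    have hfin : (Finset.univ.filter (fun c : Fin n → F => c ∈ U ∧ c ≠ 0)).Nonempty :=
      ⟨c, by simp [hc, hc0]⟩
    obtain ⟨c', hc', h⟩ := Finset.exists_min_image _ (fun c => (supp c).card) hfin
    exact ⟨c', (Finset.mem_filter.1 hc').2, fun c'' hc'' =>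
      h c'' (Finset.mem_filter.2 ⟨Finset.mem_univ _, hc''⟩)⟩
  refine ⟨c, hc, hc0, ?_⟩
  set r := Module.finrank F U with hrr
  set w := (supp c).card with hw
  have hdim := finrank_dual U
  have hwn : w ≤ n := by
    have := Finset.card_le_univ (supp c)
    simpa using this
  have hw1 : 1 ≤ w := by
    rw [hw, Nat.one_le_iff_ne_zero, Finset.card_ne_zero]
    by_contra hemp
    rw [Finset.not_nonempty_iff_eq_empty] at hemp
    apply hc0
    funext x
    by_contra hx
    have : x ∈ supp c := Finset.mem_filter.2 ⟨Finset.mem_univ _, hx⟩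
    rw [hemp] at this
    exact absurd this (Finset.notMem_empty _)
  have hrn : r ≤ n := by omega
  rcases le_or_gt w 2 with h2 | h2
  · calc r * w ≤ n * 2 := Nat.mul_le_mul hrn h2
      _ = 2 * n := mul_comm _ _
      _ ≤ _ := Nat.mul_le_mul_right _ (by unfold cLight; omega)
  · have h := girth_dense_gen (L := L) (k := w) (dual U) h2 hL
      (fun c' hc' hc0' => by
        rw [dual_dual] at hc'
        exact hmin c' ⟨hc', hc0'⟩)
    have hV : n - Module.finrank F (dual U) = r := by omega
    rw [hV] at h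
    set v := Module.finrank F (dual U) with hv
    set K := Fintype.card F * (L + 1) with hK
    have hvn : v ≤ n := by omega
    have hn1 : 1 ≤ n := by omega
    have e1 : 8 * K * (4 * K + 4) * Fintype.card F * v ≤
        8 * K * (4 * K + 4) * Fintype.card F * n := Nat.mul_le_mul_left _ hvn
    have e2 : 4 * (4 * K + 4) * (K * v + 1) ≤ 4 * (4 * K + 4) * ((K + 1) * n) := by
      refine Nat.mul_le_mul_left _ ?_
      have : K * v ≤ K * n := Nat.mul_le_mul_left _ hvn
      nlinarith
    have e3 : r * (w - 2) ≤ (8 * K * (4 * K + 4) * Fintype.card F + 2 +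
        4 * (4 * K + 4) * (K + 1)) * n := by
      have e4 : 2 * (w - 2) ≤ 2 * n := by omega
      calc r * (w - 2) ≤ _ := h
        _ ≤ 8 * K * (4 * K + 4) * Fintype.card F * n + 2 * n + 4 * (4 * K + 4) * ((K + 1) * n) := by
          omega
        _ = _ := by ring
    calc r * w ≤ r * (3 * (w - 2)) := Nat.mul_le_mul_left _ (by omega)
      _ = 3 * (r * (w - 2)) := by ring
      _ ≤ 3 * ((8 * K * (4 * K + 4) * Fintype.card F + 2 +
        4 * (4 * K + 4) * (K + 1)) * n) := Nat.mul_le_mul_left _ e3
      _ = cLight (Fintype.card F) L * n := by unfold cLight; rw [← hK]; ring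

/-- the members of `U` vanishing on `X` -/
def van {n : ℕ} (U : Submodule F (Fin n → F)) (X : Finset (Fin n)) : Submodule F (Fin n → F) :=
  U ⊓ LinearMap.ker (rst X : (Fin n → F) →ₗ[F] (X → F))

lemma mem_van {n : ℕ} {U : Submodule F (Fin n → F)} {X : Finset (Fin n)} {u : Fin n → F} :
    u ∈ van U X ↔ u ∈ U ∧ ∀ x ∈ X, u x = 0 := by
  unfold van
  rw [Submodule.mem_inf, LinearMap.mem_ker]
  refine and_congr_right fun _ => ?_
  constructor
  · intro h x hx
    have := congrFun h ⟨x, hx⟩
    exact this
  · intro h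
    funext x
    exact h x x.2

lemma finrank_van {n : ℕ} (U : Submodule F (Fin n → F)) (X : Finset (Fin n)) :
    Module.finrank F U ≤ Module.finrank F (van U X) + X.card := by
  have h1 := LinearMap.finrank_range_add_finrank_ker
    ((rst X : (Fin n → F) →ₗ[F] (X → F)).domRestrict U)
  have h2 : Module.finrank F (LinearMap.range
      ((rst X : (Fin n → F) →ₗ[F] (X → F)).domRestrict U)) ≤ X.card := by
    refine (Submodule.finrank_le _).trans ?_
    rw [Module.finrank_pi, Fintype.card_coe]
  have h3 : Module.finrank F (LinearMap.ker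
      ((rst X : (Fin n → F) →ₗ[F] (X → F)).domRestrict U)) ≤ Module.finrank F (van U X) := by
    let g : LinearMap.ker ((rst X : (Fin n → F) →ₗ[F] (X → F)).domRestrict U) →ₗ[F] van U X :=
      { toFun := fun u => ⟨(u : U), mem_van.2 ⟨u.1.2, fun x hx =>
          congrFun (LinearMap.mem_ker.1 u.2) ⟨x, hx⟩⟩⟩
        map_add' := fun _ _ => rfl
        map_smul' := fun _ _ => rfl }
    refine LinearMap.finrank_le_finrank_of_injective (f := g) ?_
    intro a b h
    have := congrArg Subtype.val h
    exact Subtype.ext (Subtype.ext this)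
  omega

/-- Greedy choice of a basis. -/
theorem greedy [DecidableEq F] {n B : ℕ} (U : Submodule F (Fin n → F))
    (h : ∀ X : Finset (Fin n), 1 ≤ Module.finrank F (van U X) →
      ∃ c ∈ van U X, c ≠ 0 ∧ Module.finrank F (van U X) * (supp c).card ≤ B) :
    ∃ A : Fin (Module.finrank F U) → (Fin n → F), Submodule.span F (Set.range A) = U ∧
      ∀ i, (Module.finrank F U - i) * (supp (A i)).card ≤ B := by
  classical
  set r := Module.finrank F U with hr
  have key : ∀ j ≤ r, ∃ A : Fin j → (Fin n → F), LinearIndependent F A ∧ (∀ i, A i ∈ U) ∧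
      ∀ i, (r - i) * (supp (A i)).card ≤ B := by
    intro j
    induction j with
    | zero =>
      intro _
      exact ⟨fun i => i.elim0, linearIndependent_empty_type, fun i => i.elim0, fun i => i.elim0⟩
    | succ j ih =>
      intro hj
      obtain ⟨A, hA, hAU, hAw⟩ := ih (by omega)
      set S := Submodule.span F (Set.range A) with hS
      have hSr : Module.finrank F S = j := by
        rw [hS, finrank_span_eq_card hA, Fintype.card_fin]
      obtain ⟨κ, _, _, a, u, ha, hcard, -, -, hw⟩ := exists_coords S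
      set X : Finset (Fin n) := Finset.univ.image a with hX
      have hXc : X.card = j := by
        rw [hX, Finset.card_image_of_injective _ ha, Finset.card_univ, hcard, hSr]
      have hv := finrank_van U X
      rw [hXc] at hv
      obtain ⟨c, hc, hc0, hcw⟩ := h X (by omega)
      rw [mem_van] at hc
      have hcS : c ∉ S := by
        intro hcS
        apply hc0
        funext e
        rw [hw c hcS e]
        refine Finset.sum_eq_zero fun i _ => ?_
        rw [hc.2 (a i) (Finset.mem_image_of_mem _ (Finset.mem_univ i)), mul_zero]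
      refine ⟨Fin.snoc A c, ?_, ?_, ?_⟩
      · rw [linearIndependent_finSnoc]
        exact ⟨hA, hcS⟩
      · intro i
        refine Fin.lastCases ?_ (fun i => ?_) i
        · rw [Fin.snoc_last]; exact hc.1
        · rw [Fin.snoc_castSucc]; exact hAU i
      · intro i
        refine Fin.lastCases ?_ (fun i => ?_) i
        · rw [Fin.snoc_last, Fin.val_last]
          refine le_trans (Nat.mul_le_mul_right _ ?_) hcw
          omega
        · rw [Fin.snoc_castSucc, Fin.val_castSucc]
          exact hAw i
  obtain ⟨A, hA, hAU, hAw⟩ := key r le_rfl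
  refine ⟨A, ?_, hAw⟩
  refine Submodule.eq_of_le_of_finrank_eq (Submodule.span_le.2 ?_) ?_
  · rintro _ ⟨i, rfl⟩
    exact hAU i
  · rw [finrank_span_eq_card hA, Fintype.card_fin]

theorem sparse_of_growth [Fintype F] [DecidableEq F] (L : ℕ) (𝓜 : MClass F) (hclosed : MinorClosed 𝓜)
    (hL : LinearGrowth L (dualClass 𝓜)) {n : ℕ} (U : Submodule F (Fin n → F)) (hU : 𝓜 n U) :
    ∃ A : Fin (Module.finrank F U) → (Fin n → F), Submodule.span F (Set.range A) = U ∧
      ∀ i, (Module.finrank F U - i) * (supp (A i)).card ≤ cLight (Fintype.card F) L * n := by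
  classical
  refine greedy U fun X hX => ?_
  -- contraction of X
  set Y : Finset (Fin n) := Finset.univ \ X with hY
  let f : Fin Y.card ↪ Fin n := (Y.orderEmbOfFin rfl).toEmbedding
  have hfY : ∀ j, f j ∈ Y := fun j => Finset.orderEmbOfFin_mem _ _ _
  have hfsurj : ∀ y ∈ Y, ∃ j, f j = y := by
    intro y hy
    have : y ∈ Set.range (Y.orderEmbOfFin rfl) := by
      rw [Finset.range_orderEmbOfFin]; exact hy
    exact this
  have hfX : ∀ j, f j ∉ (X : Set (Fin n)) := by
    intro j hj
    exact (Finset.mem_sdiff.1 (hfY j)).2 hj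
  set U' := minor U f (X : Set (Fin n)) with hU'
  have hU'm : 𝓜 _ U' := hclosed n U hU _ f _ hfX
  have hlin : LinMin L (dual U') := by
    intro m g C hgC hs
    refine hL m _ ?_ hs
    change 𝓜 m (dual (minor (dual U') g C))
    rw [dual_minor (dual U') g C hgC, dual_dual]
    exact hclosed _ _ hU'm m g _ (fun j hj => hj.1 ⟨j, rfl⟩)
  have hrank : Module.finrank F (van U X) ≤ Module.finrank F U' := by
    let g : van U X →ₗ[F] U' :=
      { toFun := fun u => ⟨fun j => (u : Fin n → F) (f j), by
          rw [hU', mem_minor]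
          exact ⟨u, (mem_van.1 u.2).1, fun c hc => (mem_van.1 u.2).2 c hc, fun j => rfl⟩⟩
        map_add' := fun _ _ => rfl
        map_smul' := fun _ _ => rfl }
    refine LinearMap.finrank_le_finrank_of_injective (f := g) ?_
    intro a b h
    refine Subtype.ext ?_
    funext x
    by_cases hx : x ∈ X
    · rw [(mem_van.1 a.2).2 x hx, (mem_van.1 b.2).2 x hx]
    · obtain ⟨j, rfl⟩ := hfsurj x (Finset.mem_sdiff.2 ⟨Finset.mem_univ _, hx⟩)
      exact congrFun (congrArg Subtype.val h) j
  obtain ⟨c', hc', hc0', hcw'⟩ := light U' hlin (hX.trans hrank)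
  rw [hU', mem_minor] at hc'
  obtain ⟨c, hcU, hcX, hcf⟩ := hc'
  refine ⟨c, mem_van.2 ⟨hcU, hcX⟩, ?_, ?_⟩
  · rintro rfl
    apply hc0'
    funext j
    rw [hcf j]; rfl
  · have h1 : (supp c).card ≤ (supp c').card := by
      have : supp c ⊆ (supp c').map f := by
        intro x hx
        have hx0 : c x ≠ 0 := (Finset.mem_filter.1 hx).2
        have hxX : x ∉ X := fun h => hx0 (hcX x h)
        obtain ⟨j, rfl⟩ := hfsurj x (Finset.mem_sdiff.2 ⟨Finset.mem_univ _, hxX⟩)
        refine Finset.mem_map_of_mem f (Finset.mem_filter.2 ⟨Finset.mem_univ _, ?_⟩)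
        rw [hcf j]
        exact hx0
      calc _ ≤ _ := Finset.card_le_card this
        _ = _ := Finset.card_map _
    calc _ ≤ Module.finrank F U' * (supp c').card := Nat.mul_le_mul hrank h1
      _ ≤ cLight (Fintype.card F) L * Y.card := hcw'
      _ ≤ _ := by
        refine Nat.mul_le_mul_left _ ?_
        have := Finset.card_le_univ Y
        simpa using this

/-- Members of classes without large cographic cliques have sparse matrices. -/
theorem sparse (F : Type) [Field F] [Finite F] (m : ℕ) :
    ∃ C : ℕ, ∀ 𝓜 : MClass F, MinorClosed 𝓜 →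
      (∀ (n : ℕ) (U : Submodule F (Fin n → F)), 𝓜 n U → ¬ IsClique m (dual U)) →
      ∀ (n : ℕ) (U : Submodule F (Fin n → F)), 𝓜 n U →
        (∃ A : Matrix (Fin (Module.finrank F U)) (Fin n) F, rowSpace A = U ∧
          ∀ i, (Module.finrank F U - i) * {j | A i j ≠ 0}.ncard ≤ C * n) ∧
        ∀ k : ℕ, 2 * k ≤ n → TutteConn k U → k * Module.finrank F U ≤ C * n := by
  classical
  have : Fintype F := Fintype.ofFinite F
  obtain ⟨N, hN⟩ := unscale F m
  obtain ⟨L, hL⟩ := gw F N
  refine ⟨cLight (Fintype.card F) L, fun 𝓜 hclosed h2 n U hU => ?_⟩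
  have hdc : MinorClosed (dualClass 𝓜) := by
    intro n U hU m' f C hfC
    change 𝓜 _ (dual (minor U f C))
    rw [dual_minor U f C hfC]
    exact hclosed n _ hU m' f _ (fun j hj => hj.1 ⟨j, rfl⟩)
  have hgr : LinearGrowth L (dualClass 𝓜) := by
    refine hL _ hdc ?_
    intro n U hU hcl
    obtain ⟨m', f, hf⟩ := hN n U hcl
    have h3 : 𝓜 _ (dual (minor U f ∅)) := hdc n U hU m' f ∅ (fun j => by simp)
    refine h2 _ _ h3 ?_
    rwa [dual_dual]
  obtain ⟨A, hA, hAw⟩ := sparse_of_growth L 𝓜 hclosed hgr U hU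
  have hsupp : ∀ i, {j | A i j ≠ 0}.ncard = (supp (A i)).card := by
    intro i
    rw [← Set.ncard_coe_finset]
    congr 1
    ext j
    simp [supp]
  refine ⟨⟨fun i j => A i j, hA, fun i => ?_⟩, fun k hk hconn => ?_⟩
  · rw [hsupp i]
    exact hAw i
  · rcases Nat.eq_zero_or_pos (Module.finrank F U) with h0 | h0
    · rw [h0, mul_zero]; exact Nat.zero_le _
    · have h4 := hAw ⟨0, h0⟩
      have h5 : k ≤ (supp (A ⟨0, h0⟩)).card := by
        refine cogirth_of_conn U hk hconn _ ?_ ?_
        · exact hA.le (Submodule.subset_span ⟨_, rfl⟩)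
        · intro hz
          have hli : LinearIndependent F A := by
            rw [linearIndependent_iff_card_eq_finrank_span, Fintype.card_fin, Set.finrank, hA]
          exact hli.ne_zero _ hz
      calc k * Module.finrank F U = (Module.finrank F U - 0) * k := by rw [Nat.sub_zero, mul_comm]
        _ ≤ (Module.finrank F U - 0) * (supp (A ⟨0, h0⟩)).card := Nat.mul_le_mul_left _ h5
        _ ≤ _ := h4

end Pool.Agent.Helper39.TC
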